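import Pool.Agent.H17.PicardExt

/-!
# Hurwitz' theorem along an ultrafilter
-/

open Topology Filter

namespace Pool.Agent.H62.Log

open Pool.Agent.H17

/-- **Hurwitz' theorem.**  A limit of holomorphic functions without zeros is identically zero or
has no zeros. -/
theorem hurwitz {α : Type*} (𝒰 : Ultrafilter α) {φ : α → ℂ → ℂ} {ψ : ℂ → ℂ} {a : ℂ} {r : ℝ}
    (h1 : ∀ᶠ k in (𝒰 : Filter α), DifferentiableOn ℂ (φ k) (Metric.ball a r))
    (h2 : ∀ᶠ k in (𝒰 : Filter α), ∀ z ∈ Metric.ball a r, φ k z ≠ 0)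
    (hψ : DifferentiableOn ℂ ψ (Metric.ball a r))
    (hconv : ∀ (z : α → ℂ) (z₀ : ℂ), z₀ ∈ Metric.ball a r → Tendsto z (𝒰 : Filter α) (𝓝 z₀) →
      Tendsto (fun k => φ k (z k)) (𝒰 : Filter α) (𝓝 (ψ z₀))) :
    (∀ z ∈ Metric.ball a r, ψ z = 0) ∨ ∀ z ∈ Metric.ball a r, ψ z ≠ 0 := by
  have han : AnalyticOnNhd ℂ ψ (Metric.ball a r) := hψ.analyticOnNhd Metric.isOpen_ball
  rcases han.eqOn_zero_or_eventually_ne_zero_of_preconnected
    (convex_ball a r).isPreconnected with h0 | h0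
  · exact Or.inl h0
  right
  intro z₀ hz₀ hψ0
  have hev : ∀ᶠ z in 𝓝[≠] z₀, ψ z ≠ 0 := by
    rcases (han z₀ hz₀).eventually_eq_zero_or_eventually_ne_zero with h3 | h3
    · exfalso
      have h5 : {z | ψ z ≠ 0} ∈ codiscreteWithin (Metric.ball a r) := h0
      have h6 := (mem_codiscreteWithin.mp h5) z₀ hz₀
      rw [disjoint_principal_right] at h6
      have h7 : ∀ᶠ z in 𝓝[≠] z₀, z ∈ Metric.ball a r := by
        have := Metric.isOpen_ball.mem_nhds hz₀
        exact nhdsWithin_le_nhds this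
      have h8 := h3.filter_mono (nhdsWithin_le_nhds (s := {z₀}ᶜ))
      have h6' : ∀ᶠ z in 𝓝[≠] z₀, z ∈ (Metric.ball a r \ {z | ψ z ≠ 0})ᶜ := h6
      obtain ⟨z, hz1, hz2, hz3⟩ := (h6'.and (h7.and h8)).exists
      exact hz1 ⟨hz2, fun h => h hz3⟩
    · exact h3
  obtain ⟨s, hs0, hs1, hs2⟩ : ∃ s > 0, Metric.closedBall z₀ s ⊆ Metric.ball a r ∧
      ∀ z ∈ Metric.sphere z₀ s, ψ z ≠ 0 := by
    obtain ⟨s₁, hs₁, hs₁'⟩ := Metric.isOpen_iff.mp Metric.isOpen_ball z₀ hz₀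
    obtain ⟨s₂, hs₂, hs₂'⟩ := Metric.mem_nhdsWithin_iff.mp hev
    refine ⟨min s₁ s₂ / 2, by positivity, ?_, ?_⟩
    · refine (Metric.closedBall_subset_ball ?_).trans hs₁'
      have := min_le_left s₁ s₂
      have : 0 < min s₁ s₂ := lt_min hs₁ hs₂
      linarith
    · intro z hz
      have h3 : 0 < min s₁ s₂ := lt_min hs₁ hs₂
      have h4 := min_le_right s₁ s₂
      rw [mem_sphere_iff_norm] at hz
      refine hs₂' ⟨?_, ?_⟩
      · rw [mem_ball_iff_norm, hz]
        linarith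
      · intro h5
        rw [Set.mem_singleton_iff] at h5
        rw [h5, sub_self, norm_zero] at hz
        linarith
  have hcomp : IsCompact (Metric.sphere z₀ s) := isCompact_sphere z₀ s
  have hne : (Metric.sphere z₀ s).Nonempty := NormedSpace.sphere_nonempty.mpr hs0.le
  have hcont : ContinuousOn (fun z => ‖ψ z‖) (Metric.sphere z₀ s) :=
    (hψ.continuousOn.mono (Metric.sphere_subset_closedBall.trans hs1)).norm
  obtain ⟨z₁, hz₁, hmin⟩ := hcomp.exists_isMinOn hne hcont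
  set m : ℝ := ‖ψ z₁‖ with hm
  have hmpos : 0 < m := norm_pos_iff.mpr (hs2 z₁ hz₁)
  have hlow : ∀ᶠ k in (𝒰 : Filter α), ∀ z ∈ Metric.sphere z₀ s, m / 2 ≤ ‖φ k z‖ := by
    by_contra hcon
    rw [← Ultrafilter.eventually_not] at hcon
    push Not at hcon
    choose! w hw using fun (k : α) (h : ∃ z ∈ Metric.sphere z₀ s, ‖φ k z‖ < m / 2) => h
    have hw1 : ∀ᶠ k in (𝒰 : Filter α), w k ∈ Metric.sphere z₀ s := hcon.mono fun k hk => (hw k hk).1
    have hw2 : ∀ᶠ k in (𝒰 : Filter α), ‖φ k (w k)‖ < m / 2 := hcon.mono fun k hk => (hw k hk).2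
    obtain ⟨z', hz'mem, hz'⟩ : ∃ z' ∈ Metric.sphere z₀ s, Tendsto w (𝒰 : Filter α) (𝓝 z') := by
      obtain ⟨l, hl1, hl2⟩ := hcomp.ultrafilter_le_nhds (𝒰.map w) (by
        rw [le_principal_iff]
        exact hw1)
      exact ⟨l, hl1, hl2⟩
    have h3 := (hconv w z' (hs1 (Metric.sphere_subset_closedBall hz'mem)) hz').norm
    have h4 := le_of_tendsto h3 (hw2.mono fun k hk => hk.le)
    have h5 : m ≤ ‖ψ z'‖ := hmin hz'mem
    linarith
  have hball : Metric.closedBall z₀ s ⊆ Metric.ball a r := hs1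
  have hlow2 : ∀ᶠ k in (𝒰 : Filter α), m / 2 ≤ ‖φ k z₀‖ := by
    filter_upwards [h1, h2, hlow] with k hk1 hk2 hk3
    have h3 : DiffContOnCl ℂ (fun z => (φ k z)⁻¹) (Metric.ball z₀ s) := by
      apply DifferentiableOn.diffContOnCl
      have h4 : closure (Metric.ball z₀ s) ⊆ Metric.ball a r :=
        Metric.closure_ball_subset_closedBall.trans hball
      exact (hk1.mono h4).fun_inv fun z hz => hk2 z (h4 hz)
    have h4 := Complex.norm_le_of_forall_mem_frontier_norm_le (Metric.isBounded_ball) h3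
      (C := (m / 2)⁻¹) (by
        intro z hz
        rw [frontier_ball z₀ hs0.ne'] at hz
        rw [norm_inv]
        have := hk3 z hz
        gcongr) (z := z₀) (subset_closure (Metric.mem_ball_self hs0))
    rw [norm_inv] at h4
    have h5 : 0 < ‖φ k z₀‖ := norm_pos_iff.mpr (hk2 z₀ hz₀)
    rwa [inv_le_inv₀ h5 (by positivity)] at h4
  have h3 := (hconv (fun _ => z₀) z₀ hz₀ tendsto_const_nhds).norm
  have h4 := ge_of_tendsto h3 hlow2
  rw [hψ0, norm_zero] at h4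
  linarith

end Pool.Agent.H62.Log
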