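import Pool.Agent.H62.Log.Bonus

/-!
# Equations assigned to boundary components: curves in the degenerate system
-/

open Polynomial Topology Filter

namespace Pool.Agent.H62.Log

open Pool.Agent.H17 Pool.Agent.H17.EntFun Pool.Agent.H92.GGL Pool.Agent.H79.Log

variable {n c m : ℕ} {d : Fin c → ℕ} {δ : Fin m → ℕ}

/-- The closed forms. -/
noncomputable def closedForm (hδ : ∀ j, 1 ≤ δ j) (L : Fin m → Finset (Fin c))
    (M : LIdx d δ → Fin (n + 1) → ℂ) (Gc : Fin c → MvPolynomial (Fin (n + c + 1)) ℂ) (ε : ℂ)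
    (l : Fin c) : MvPolynomial (Fin (n + c + 1)) ℂ := by
  classical
  exact if h : ∃ j, l ∈ L j then asgForm M l ⟨h.choose, ⟨0, hδ _⟩⟩ ε else Gc l

lemma closedForm_isHomogeneous (hδ : ∀ j, 1 ≤ δ j) (L : Fin m → Finset (Fin c))
    (M : LIdx d δ → Fin (n + 1) → ℂ) {Gc : Fin c → MvPolynomial (Fin (n + c + 1)) ℂ}
    (hGc : ∀ l, (Gc l).IsHomogeneous (d l)) (ε : ℂ) (l : Fin c) :
    (closedForm hδ L M Gc ε l).IsHomogeneous (d l) := by
  unfold closedForm
  split_ifs with h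
  · exact asgForm_isHomogeneous M l _ ε
  · exact hGc l

lemma closedForm_of_mem (hδ : ∀ j, 1 ≤ δ j) {L : Fin m → Finset (Fin c)}
    (hL : ∀ j j', j ≠ j' → Disjoint (L j) (L j')) (M : LIdx d δ → Fin (n + 1) → ℂ)
    (Gc : Fin c → MvPolynomial (Fin (n + c + 1)) ℂ) (ε : ℂ) {l : Fin c} {j : Fin m}
    (hl : l ∈ L j) : closedForm hδ L M Gc ε l = asgForm M l ⟨j, ⟨0, hδ j⟩⟩ ε := by
  have hex : ∃ j, l ∈ L j := ⟨j, hl⟩
  have hch : hex.choose = j := by
    by_contra hne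
    exact Finset.disjoint_left.mp (hL _ _ hne) hex.choose_spec hl
  have h1 : ∀ j', j' = j → asgForm M l ⟨j', ⟨0, hδ j'⟩⟩ ε = asgForm M l ⟨j, ⟨0, hδ j⟩⟩ ε := by
    rintro j' rfl
    rfl
  unfold closedForm
  rw [dif_pos hex]
  exact h1 _ hch

lemma closedForm_of_not_mem (hδ : ∀ j, 1 ≤ δ j) {L : Fin m → Finset (Fin c)}
    (M : LIdx d δ → Fin (n + 1) → ℂ)
    (Gc : Fin c → MvPolynomial (Fin (n + c + 1)) ℂ) (ε : ℂ) {l : Fin c}
    (hl : ∀ j, l ∉ L j) : closedForm hδ L M Gc ε l = Gc l := by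
  unfold closedForm
  rw [dif_neg (fun ⟨j, hj⟩ => hl j hj)]

/-- The closed system of the stratum `S` and the choice `t` of factors of the boundary forms. -/
noncomputable def Cl (hδ : ∀ j, 1 ≤ δ j) (L : Fin m → Finset (Fin c))
    (M : LIdx d δ → Fin (n + 1) → ℂ) (Gc : Fin c → MvPolynomial (Fin (n + c + 1)) ℂ)
    (S : Finset (Fin m)) (t : ∀ j, Fin (δ j)) (ε : ℂ) :
    Fin c ⊕ Fin m → MvPolynomial (Fin (n + c + 1)) ℂ :=
  Sum.elim (closedForm hδ L M Gc ε) fun j =>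
    if j ∈ S then baseLin c (M (Sum.inl ⟨j, t j⟩)) else 0

/-- The degrees of the closed system. -/
def ClDeg (m : ℕ) (d : Fin c → ℕ) : Fin c ⊕ Fin m → ℕ := Sum.elim d fun _ => 1

lemma Cl_isHomogeneous (hδ : ∀ j, 1 ≤ δ j) (L : Fin m → Finset (Fin c))
    (M : LIdx d δ → Fin (n + 1) → ℂ) {Gc : Fin c → MvPolynomial (Fin (n + c + 1)) ℂ}
    (hGc : ∀ l, (Gc l).IsHomogeneous (d l)) (S : Finset (Fin m)) (t : ∀ j, Fin (δ j)) (ε : ℂ)
    (i : Fin c ⊕ Fin m) : (Cl hδ L M Gc S t ε i).IsHomogeneous (ClDeg m d i) := by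
  rcases i with l | j
  · exact closedForm_isHomogeneous hδ L M hGc ε l
  · unfold Cl ClDeg
    simp only [Sum.elim_inr]
    split_ifs
    · exact baseLin_isHomogeneous c _
    · exact MvPolynomial.isHomogeneous_zero _ _ _

open Classical in
/-- The boundary system of the stratum `S`: the factors which have no zeros. -/
noncomputable def Bd (L : Fin m → Finset (Fin c))
    (M : LIdx d δ → Fin (n + 1) → ℂ) (S : Finset (Fin m)) :
    LIdx d δ → MvPolynomial (Fin (n + c + 1)) ℂ :=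
  Sum.elim (fun b => if b.1 ∈ S then 1 else baseLin c (M (Sum.inl b))) fun b =>
    if ∃ j, j ∉ S ∧ b.1 ∈ L j then factForm M b.1 b.2 else 1

open Classical in
/-- The degrees of the boundary system. -/
noncomputable def BdDeg (d : Fin c → ℕ) (δ : Fin m → ℕ) (L : Fin m → Finset (Fin c))
    (S : Finset (Fin m)) : LIdx d δ → ℕ :=
  Sum.elim (fun b => if b.1 ∈ S then 0 else 1) fun b =>
    if ∃ j, j ∉ S ∧ b.1 ∈ L j then 1 else 0

lemma Bd_isHomogeneous (L : Fin m → Finset (Fin c))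
    (M : LIdx d δ → Fin (n + 1) → ℂ) (S : Finset (Fin m)) (i : LIdx d δ) :
    (Bd L M S i).IsHomogeneous (BdDeg d δ L S i) := by
  rcases i with b | b
  · unfold Bd BdDeg
    simp only [Sum.elim_inl]
    split_ifs
    · exact MvPolynomial.isHomogeneous_one _ _
    · exact baseLin_isHomogeneous c _
  · unfold Bd BdDeg
    simp only [Sum.elim_inr]
    split_ifs
    · exact factForm_isHomogeneous M b.1 b.2
    · exact MvPolynomial.isHomogeneous_one _ _

lemma zero_or_ne_of_inOut {N : ℕ} {ι : Type} {e : ι → ℕ} {H : ι → MvPolynomial (Fin (N + 1)) ℂ}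
    (hH : ∀ i, (H i).IsHomogeneous (e i)) {f : ℂ → PN N} {x : Fin (N + 1) → EntFun}
    (hx : ∀ z, ∃ h : (fun j => (x j : ℂ → ℂ) z) ≠ 0, f z = Projectivization.mk ℂ _ h)
    (h : InOut H f Set.univ) (i : ι) : MvPolynomial.aeval x (H i) = (0 : EntFun) ∨
      ∀ w, ((MvPolynomial.aeval x (H i) : EntFun) : ℂ → ℂ) w ≠ 0 := by
  rcases h i with h1 | h1
  · left
    ext w
    exact (vanishesAt_iff_aeval (hH i) hx w).mp (h1 w (Set.mem_univ _))
  · right
    intro w h2
    exact h1 w (Set.mem_univ _) ((vanishesAt_iff_aeval (hH i) hx w).mpr h2)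

/-- **Curves in the degenerate system are constant.** -/
theorem stratHyp_zero {Q' : Type} [Fintype Q'] [DecidableEq Q'] {r' : Q' → ℕ}
    (hd : ∀ l, 1 ≤ d l) (hδ : ∀ j, 1 ≤ δ j)
    {z : Entry₂ r' n (LIdx d δ) → ℂ} (hz : AlgebraicIndependent ℚ z)
    {L : Fin m → Finset (Fin c)} (hL : ∀ j j', j ≠ j' → Disjoint (L j) (L j'))
    {Gc : Fin c → MvPolynomial (Fin (n + c + 1)) ℂ} (hGc : ∀ l, (Gc l).IsHomogeneous (d l))
    (hcert : ∀ x : Fin (n + c + 1) → EntFun,
      (∀ l, (∀ j, l ∉ L j) → MvPolynomial.aeval x (Gc l) = 0) →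
      (∀ q, BlockSpecial (fun e => z (Sum.inl e)) q fun k => x (xIdx k)) ∧
      ∀ v : EntFun, (∀ k, ∃ a : ℂ, x (xIdx k) = algebraMap ℂ EntFun a * v) →
        ∀ l, (∀ j, l ∉ L j) → ∃ b : ℂ, x (wIdx l) = algebraMap ℂ EntFun b * v)
    (S : Finset (Fin m)) (t : ∀ j, Fin (δ j))
    (hsum : 2 * n ≤ ∑ q, r' q + 2 * S.card +
      (∑ j ∈ Sᶜ, (δ j + ∑ l ∈ L j, (d l - 1)) - 2) + 1) :
    StratHyp (Cl hδ L (fun b k => z (Sum.inr (b, k))) Gc S t 0)
      (Bd L (fun b k => z (Sum.inr (b, k))) S) := by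
  classical
  set M : LIdx d δ → Fin (n + 1) → ℂ := fun b k => z (Sum.inr (b, k)) with hM
  intro f hf hfX hfH w₁ w₂
  obtain ⟨x, hx⟩ := exists_global_lift hf
  have hrel := aeval_eq_zero_of_mem (Cl_isHomogeneous hδ L M hGc S t 0) hx hfX
  have hio := zero_or_ne_of_inOut (Bd_isHomogeneous L M S) hx hfH
  -- the equations which are not assigned
  have e1 : ∀ l, (∀ j, l ∉ L j) → MvPolynomial.aeval x (Gc l) = 0 := by
    intro l hl
    have h1 := hrel (Sum.inl l)
    unfold Cl at h1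
    rw [Sum.elim_inl, closedForm_of_not_mem hδ M Gc 0 hl] at h1
    exact h1
  -- the assigned equations
  have e2 : ∀ l, ∃ T : Fin (d l), (∃ j, l ∈ L j) →
      x (wIdx l) = linE (M (Sum.inr ⟨l, T⟩)) fun k => x (xIdx k) := by
    intro l
    by_cases hl : ∃ j, l ∈ L j
    · obtain ⟨j, hj⟩ := hl
      have h1 := hrel (Sum.inl l)
      unfold Cl at h1
      rw [Sum.elim_inl, closedForm_of_mem hδ hL M Gc 0 hj] at h1
      unfold asgForm prodForm at h1
      rw [map_zero, zero_mul, add_zero, map_prod] at h1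
      obtain ⟨T, -, hT⟩ := Finset.prod_eq_zero_iff.mp h1
      rw [aeval_factForm, sub_eq_zero] at hT
      exact ⟨T, fun _ => hT⟩
    · exact ⟨⟨0, hd l⟩, fun h => absurd h hl⟩
  choose T hT using e2
  obtain ⟨hspec, hprop⟩ := hcert x e1
  -- the general position
  set z' : Entry₂ r' n (LIdx d δ) → ℂ := Sum.elim (fun e => z (Sum.inl e))
    (fun p => shiftM M T p.1 p.2) with hz'
  have hz'i : AlgebraicIndependent ℚ z' := shift_algebraicIndependent hz T
  set P : Finset (LIdx d δ) := S.image fun j => Sum.inl ⟨j, t j⟩ with hP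
  set O₁ : Finset (Σ j : Fin m, Fin (δ j)) := Finset.univ.filter fun b => b.1 ∉ S with hO₁
  set O₂ : Finset (Σ l : Fin c, Fin (d l)) := Finset.univ.filter fun b =>
    (∃ j, j ∉ S ∧ b.1 ∈ L j) ∧ b.2 ≠ T b.1 with hO₂
  have hPcard : P.card = S.card := by
    rw [hP, Finset.card_image_of_injective]
    intro j j' h
    exact (Sigma.mk.inj (Sum.inl.inj h)).1
  have hO₁card : O₁.card = ∑ j ∈ Sᶜ, δ j := by
    have h1 : O₁ = Sᶜ.sigma fun _ => Finset.univ := by
      ext b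
      rw [hO₁, Finset.mem_filter, Finset.mem_sigma, Finset.mem_compl]
      simp
    rw [h1, Finset.card_sigma]
    exact Finset.sum_congr rfl fun l _ => by rw [Finset.card_univ, Fintype.card_fin]
  have hO₂card : O₂.card = ∑ j ∈ Sᶜ, ∑ l ∈ L j, (d l - 1) := by
    have h1 : O₂ = (Sᶜ.biUnion L).sigma fun l => Finset.univ.erase (T l) := by
      ext b
      rw [hO₂, Finset.mem_filter, Finset.mem_sigma, Finset.mem_biUnion, Finset.mem_erase]
      simp only [Finset.mem_univ, true_and, and_true, Finset.mem_compl]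
    rw [h1, Finset.card_sigma, Finset.sum_biUnion]
    · refine Finset.sum_congr rfl fun j _ => Finset.sum_congr rfl fun l _ => ?_
      rw [Finset.card_erase_of_mem (Finset.mem_univ _), Finset.card_univ, Fintype.card_fin]
    · intro j _ j' _ hjj
      exact hL j j' hjj
  have hcross : ∀ w w' k k', (x (xIdx k) : ℂ → ℂ) w * (x (xIdx k') : ℂ → ℂ) w' =
      (x (xIdx k') : ℂ → ℂ) w * (x (xIdx k) : ℂ → ℂ) w' := by
    intro w w' k k'
    refine cross_of_strat hz'i (fun k => x (xIdx k)) hspec P (O₁.disjSum O₂) ?_ ?_ ?_ ?_ w w' k k'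
    · rw [Finset.disjoint_left]
      intro b hb hb'
      obtain ⟨j, hj, rfl⟩ := Finset.mem_image.mp hb
      rw [Finset.inl_mem_disjSum] at hb'
      exact (Finset.mem_filter.mp hb').2 hj
    · intro b hb
      obtain ⟨j, hj, rfl⟩ := Finset.mem_image.mp hb
      have h1 := hrel (Sum.inr j)
      unfold Cl at h1
      rw [Sum.elim_inr, if_pos hj, aeval_baseLin] at h1
      exact h1
    · rintro (b | b) hb
      · rw [Finset.inl_mem_disjSum] at hb
        have h1 := hio (Sum.inl b)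
        unfold Bd at h1
        rw [Sum.elim_inl, if_neg (Finset.mem_filter.mp hb).2, aeval_baseLin] at h1
        exact h1
      · rw [Finset.inr_mem_disjSum] at hb
        obtain ⟨-, ⟨j, hjS, hj⟩, hb2⟩ := Finset.mem_filter.mp hb
        have h1 := hio (Sum.inr b)
        unfold Bd at h1
        rw [Sum.elim_inr, if_pos ⟨j, hjS, hj⟩, aeval_factForm, hT b.1 ⟨j, hj⟩, ← linE_sub] at h1
        have h2 : (fun k => z' (Sum.inr (Sum.inr b, k))) =
            fun k => M (Sum.inr ⟨b.1, T b.1⟩) k - M (Sum.inr b) k := by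
          funext k
          simp only [hz', Sum.elim_inr, shiftM, if_neg hb2]
        rw [h2]
        exact h1
    · rw [hPcard, Finset.card_disjSum, hO₁card, hO₂card, ← Finset.sum_add_distrib]
      exact hsum
  -- the other coordinates, if the base coordinates are proportional
  have hrest : ∀ v : EntFun, (∀ k, ∃ a : ℂ, x (xIdx k) = algebraMap ℂ EntFun a * v) →
      ∀ l, ∃ b : ℂ, x (wIdx l) = algebraMap ℂ EntFun b * v := by
    intro v hv l
    by_cases hl : ∃ j, l ∈ L j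
    · obtain ⟨b, hb⟩ := exists_linE_eq (M (Sum.inr ⟨l, T l⟩)) hv
      exact ⟨b, by rw [hT l hl, hb]⟩
    · exact hprop v hv l fun j hj => hl ⟨j, hj⟩
  -- some base coordinate does not vanish identically
  obtain ⟨k₀, w₀, hk₀⟩ : ∃ k₀ w₀, (x (xIdx k₀) : ℂ → ℂ) w₀ ≠ 0 := by
    by_contra hcon
    push Not at hcon
    have h1 : ∀ k, x (xIdx k) = 0 := fun k => EntFun.ext' fun w => hcon k w
    obtain ⟨h2, -⟩ := hx 0
    apply h2
    funext j
    rcases idx_cases' j with ⟨i, rfl⟩ | ⟨l, rfl⟩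
    · exact hcon i 0
    · obtain ⟨b, hb⟩ := hrest 0 (fun k => ⟨0, by rw [h1 k, mul_zero]⟩) l
      rw [hb, mul_zero]
      rfl
  set v : EntFun := x (xIdx k₀) with hv
  have hxa : ∀ k, x (xIdx k) =
      algebraMap ℂ EntFun ((x (xIdx k) : ℂ → ℂ) w₀ / (v : ℂ → ℂ) w₀) * v := by
    intro k
    ext w
    have h1 := hcross w w₀ k k₀
    have h2 : ((algebraMap ℂ EntFun ((x (xIdx k) : ℂ → ℂ) w₀ / (v : ℂ → ℂ) w₀) * v : EntFun) :
        ℂ → ℂ) w = (x (xIdx k) : ℂ → ℂ) w₀ / (v : ℂ → ℂ) w₀ * (v : ℂ → ℂ) w := rfl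
    rw [h2, div_mul_eq_mul_div, eq_div_iff hk₀]
    rw [← hv] at h1
    linear_combination h1
  have hall : ∀ j, ∃ a : ℂ, x j = algebraMap ℂ EntFun a * v := by
    intro j
    rcases idx_cases' j with ⟨i, rfl⟩ | ⟨l, rfl⟩
    · exact ⟨_, hxa i⟩
    · exact hrest v (fun k => ⟨_, hxa k⟩) l
  choose a ha using hall
  exact const_of_proportional hx ha w₁ w₂

end Pool.Agent.H62.Log
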