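import Pool.Agent.H62.Log.Forms

/-!
# The equations attached to blocks

For every matrix `z` of coefficients there are forms attached to the blocks, such that each entire
curve in the common zero locus of these forms is in special position with respect to each block,
and such that the additional coordinates are constant if the base coordinates are constant.
-/

open Polynomial Topology Filter

namespace Pool.Agent.H62.Log

open Pool.Agent.H17 Pool.Agent.H17.EntFun Pool.Agent.H92.GGL Pool.Agent.H79.Log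

variable {Q : Type}

/-- The ranks of the blocks and of the hypersurfaces. -/
abbrev blockRank {c : ℕ} (r : Q → ℕ) (K : Finset (Fin c)) (ρ : Fin c → ℕ) :
    Q ⊕ {l // l ∈ K} → ℕ := Sum.elim r fun l => ρ l.1

/-- **Equations attached to blocks.**  The forms with index in `A` play no role. -/
theorem cert_of_blocks [Fintype Q] [DecidableEq Q] (n c : ℕ) (d : Fin c → ℕ) (hd : ∀ l, 1 ≤ d l)
    (r : Q → ℕ) (hr : ∀ q, r q ≤ 2) (B : Q → Finset (Fin c))
    (hB : ∀ q q', q ≠ q' → Disjoint (B q) (B q')) (K : Finset (Fin c)) (ρ : Fin c → ℕ)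
    (hBK : ∀ q, Disjoint (B q) K) (A : Finset (Fin c)) (hBA : ∀ q, Disjoint (B q) A)
    (hKA : Disjoint K A)
    (hnum : ∀ q, ∀ e ρ : ℕ, 0 < e → 0 < ρ → ρ + e ≤ r q + 1 →
      2 * ρ + ∑ l ∈ B q, min (d l) (e * ρ) < ∑ l ∈ B q, d l)
    (hK : ∀ l ∈ K, ∃ g : MvPolynomial (Fin (ρ l + 2)) ℂ, g.IsHomogeneous (d l) ∧
      ∀ f : ℂ → PN (ρ l + 1), HolomorphicInto f Set.univ →
        (∀ z, f z ∈ zeroLocus fun _ : Unit => g) → ∀ z w, f z = f w)
    (z : Entry (blockRank r K ρ) n → ℂ) :
    ∃ G : Fin c → MvPolynomial (Fin (n + c + 1)) ℂ, (∀ l, (G l).IsHomogeneous (d l)) ∧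
      ∀ x : Fin (n + c + 1) → EntFun, (∀ l, l ∉ A → MvPolynomial.aeval x (G l) = 0) →
        (∀ q, BlockSpecial z q fun k => x (xIdx k)) ∧
        ∀ v : EntFun, (∀ k, ∃ a : ℂ, x (xIdx k) = algebraMap ℂ EntFun a * v) →
          ∀ l, l ∉ A → ∃ b : ℂ, x (wIdx l) = algebraMap ℂ EntFun b * v := by
  classical
  obtain ⟨ν, hν⟩ := Countable.exists_injective_nat (Σ l, Fin (d l))
  choose g hg hbr using hK
  have hpex : ∀ l (hl : l ∈ K), ∃ p : Fin (ρ l + 2) → ℂ, MvPolynomial.eval p (g l hl) ≠ 0 :=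
    fun l hl => exists_eval_ne_zero (hg l hl) (hbr l hl)
  choose p hp using hpex
  have hjex : ∀ l (hl : l ∈ K), ∃ j₀, p l hl j₀ ≠ 0 := by
    intro l hl
    by_contra hcon
    push Not at hcon
    apply hp l hl
    have h1 := eval_smul_of_isHomogeneous (hg l hl) 0 (p l hl)
    have h2 : (fun k => 0 * p l hl k) = p l hl := by
      funext k
      rw [hcon k, mul_zero]
    rw [h2, zero_pow (by have := hd l; omega), zero_mul] at h1
    exact h1
  choose j₀ hj₀ using hjex
  set G : Fin c → MvPolynomial (Fin (n + c + 1)) ℂ := fun l =>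
    if h : ∃ q, l ∈ B q then MvPolynomial.X (wIdx l) ^ d l -
      ∏ j : Fin (d l), nodeForm c z (Sum.inl h.choose) (ν ⟨l, j⟩)
    else if hl : l ∈ K then gadgetForm z (Sum.inr ⟨l, hl⟩) l (g l hl) (p l hl) (j₀ l hl)
    else MvPolynomial.X (wIdx l) ^ d l with hG
  have hGhom : ∀ l, (G l).IsHomogeneous (d l) := by
    intro l
    simp only [hG]
    split_ifs with h hl
    · refine (MvPolynomial.isHomogeneous_X_pow _ _).sub ?_
      have h1 := MvPolynomial.IsHomogeneous.prod Finset.univ
        (fun j : Fin (d l) => nodeForm c z (Sum.inl h.choose) (ν ⟨l, j⟩)) (fun _ => 1)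
        (fun j _ => nodeForm_isHomogeneous c z (Sum.inl h.choose) _)
      rwa [Finset.sum_const, Finset.card_univ, Fintype.card_fin, smul_eq_mul, mul_one] at h1
    · exact gadgetForm_isHomogeneous z (Sum.inr ⟨l, hl⟩) l (p l hl) (j₀ l hl) (hg l hl)
    · exact MvPolynomial.isHomogeneous_X_pow _ _
  refine ⟨G, hGhom, ?_⟩
  intro x hrel
  -- the equations
  have g1 : ∀ q, ∀ l ∈ B q, x (wIdx l) ^ d l =
      ∏ j : Fin (d l), evC (ν ⟨l, j⟩ : ℂ) (blockPoly z (Sum.inl q) fun k => x (xIdx k)) := by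
    intro q l hl
    have h1 := hrel l (Finset.disjoint_left.mp (hBA q) hl)
    have hex : ∃ q, l ∈ B q := ⟨q, hl⟩
    have hch : hex.choose = q := by
      by_contra hne
      exact Finset.disjoint_left.mp (hB _ _ hne) hex.choose_spec hl
    simp only [hG, dif_pos hex] at h1
    rw [hch, map_sub, map_pow, MvPolynomial.aeval_X, map_prod, sub_eq_zero] at h1
    rw [h1]
    exact Finset.prod_congr rfl fun j _ => (evC_blockPoly z (Sum.inl q) x _).symm
  have g2 : ∀ l (hl : l ∈ K), MvPolynomial.aeval (gadgetVec z (Sum.inr ⟨l, hl⟩) (p l hl) (j₀ l hl)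
      (fun k => x (xIdx k)) (x (wIdx l))) (g l hl) = 0 := by
    intro l hl
    have h1 := hrel l (Finset.disjoint_left.mp hKA hl)
    have hex : ¬ ∃ q, l ∈ B q := fun ⟨q, hq⟩ => Finset.disjoint_left.mp (hBK q) hq hl
    simp only [hG, dif_neg hex, dif_pos hl] at h1
    exact (aeval_gadgetForm (r := blockRank r K ρ) z (Sum.inr ⟨l, hl⟩) l (g l hl) (p l hl) (j₀ l hl) x).symm.trans
      h1
  have g3 : ∀ l, l ∉ A → (¬ ∃ q, l ∈ B q) → l ∉ K → x (wIdx l) = 0 := by
    intro l hlA hl hl'
    have h1 := hrel l hlA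
    simp only [hG, dif_neg hl, dif_neg hl'] at h1
    rw [map_pow, MvPolynomial.aeval_X] at h1
    exact pow_eq_zero_iff (by have := hd l; omega) |>.mp h1
  refine ⟨?_, ?_⟩
  · -- all blocks are in special position
    intro q
    rcases q with q | ⟨l, hl⟩
    · refine blockSpecial_of_block (q := Sum.inl q) (hr q) (L := {l // l ∈ B q}) (fun l => d l)
        (fun l => hd l) (fun i => ν ⟨i.1.1, i.2⟩) ?_ (fun k => x (xIdx k))
        (fun l => x (wIdx l.1)) (fun l => g1 q l.1 l.2) ?_
      · rintro ⟨⟨l, hl⟩, j⟩ ⟨⟨l', hl'⟩, j'⟩ h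
        have h1 := hν h
        simp only [Sigma.mk.injEq] at h1
        obtain ⟨rfl, h2⟩ := h1
        simp only [heq_eq_eq] at h2
        rw [h2]
      · intro e ρ he hρ heρ
        have h1 := hnum q e ρ he hρ heρ
        rw [← Finset.sum_coe_sort (B q), ← Finset.sum_coe_sort (B q)] at h1
        exact h1
    · exact blockSpecial_of_gadget (r := blockRank r K ρ) (z := z) (q := (Sum.inr ⟨l, hl⟩ : Q ⊕ {l // l ∈ K}))
        (hg l hl) (hbr l hl) (hj₀ l hl) (fun k => x (xIdx k)) (x (wIdx l)) (g2 l hl)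
  · -- the other coordinates, if the base coordinates are proportional
    intro v hv l hlA
    by_cases hl : ∃ q, l ∈ B q
    · obtain ⟨q, hl⟩ := hl
      have h4 := g1 q l hl
      choose a ha using hv
      have h5 : ∀ j : Fin (d l), ∃ γ : ℂ,
          evC (ν ⟨l, j⟩ : ℂ) (blockPoly z (Sum.inl q) fun k => x (xIdx k)) =
            algebraMap ℂ EntFun γ * v := by
        intro j
        refine ⟨∑ i : Fin (blockRank r K ρ (Sum.inl q) + 1), (∑ k, z ⟨Sum.inl q, i, k⟩ * a k) *
          (ν ⟨l, j⟩ : ℂ) ^ (i : ℕ), ?_⟩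
        unfold evC blockPoly
        rw [polyOf_eval', map_sum, Finset.sum_mul]
        refine Finset.sum_congr rfl fun i _ => ?_
        rw [map_mul, map_sum, map_pow]
        have h6 : ∑ k, algebraMap ℂ EntFun (z ⟨Sum.inl q, i, k⟩) * x (xIdx k) =
            (∑ k, algebraMap ℂ EntFun (z ⟨Sum.inl q, i, k⟩ * a k)) * v := by
          rw [Finset.sum_mul]
          refine Finset.sum_congr rfl fun k _ => ?_
          conv_lhs => rw [ha k]
          rw [map_mul]
          ring
        rw [h6]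
        ring
      choose γ hγ using h5
      rw [Finset.prod_congr rfl fun j _ => hγ j, Finset.prod_mul_distrib, Finset.prod_const,
        Finset.card_univ, Fintype.card_fin, ← map_prod] at h4
      exact exists_eq_algebraMap_mul (hd l) h4
    · by_cases hl' : l ∈ K
      · exact gadget_prop (r := blockRank r K ρ) (z := z) (q := (Sum.inr ⟨l, hl'⟩ : Q ⊕ {l // l ∈ K}))
          (hg l hl') (hbr l hl') (hp l hl') (hj₀ l hl')
          (fun k => x (xIdx k)) (x (wIdx l)) (g2 l hl') (hd l) v hv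
      · exact ⟨0, by rw [g3 l hlA hl hl', map_zero, zero_mul]⟩

end Pool.Agent.H62.Log
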