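import Pool.Agent.H92.GGL.AlgIndep

/-!
# Changing generators of an algebraically independent family
-/

namespace Pool.Agent.H62.Log

/-- A finite family which generates an algebraically independent family of the same size is
algebraically independent. -/
theorem algebraicIndependent_of_mem_adjoin {E : Type} [Fintype E] {z z' : E → ℂ}
    (hz : AlgebraicIndependent ℚ z) (h : ∀ e, z e ∈ Algebra.adjoin ℚ (Set.range z')) :
    AlgebraicIndependent ℚ z' := by
  classical
  set M := AlgebraicIndependent.matroid ℚ ℂ with hM
  have hI : M.Indep (Set.range z) := by
    rw [hM, AlgebraicIndependent.matroid_indep_iff]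
    exact hz.coe_range
  have hsub : Set.range z ⊆ M.closure (Set.range z') := by
    rintro _ ⟨e, rfl⟩
    rw [hM, AlgebraicIndependent.matroid_closure_eq]
    exact isAlgebraic_algebraMap (⟨z e, h e⟩ : Algebra.adjoin ℚ (Set.range z'))
  have h1 := hI.encard_le_eRk_of_subset hsub
  rw [Matroid.eRk_closure_eq] at h1
  have h3 : (Set.range z).encard = Fintype.card E := by
    rw [← Set.image_univ, hz.injective.encard_image, Set.encard_univ, ENat.card_eq_coe_fintype_card]
  rw [h3] at h1
  have h2 : (Set.range z').encard ≤ Fintype.card E := by
    rw [← Set.image_univ]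
    refine (Set.encard_image_le _ _).trans ?_
    rw [Set.encard_univ, ENat.card_eq_coe_fintype_card]
  have h4 : M.eRk (Set.range z') = (Set.range z').encard :=
    le_antisymm (M.eRk_le_encard _) (h2.trans h1)
  have hfin : (Set.range z').Finite := Set.finite_range z'
  have hind : M.Indep (Set.range z') := by
    rw [Matroid.indep_iff_eRk_eq_encard_of_finite hfin]
    exact h4
  rw [hM, AlgebraicIndependent.matroid_indep_iff] at hind
  have hinj : Function.Injective z' := by
    have h5 : (Set.range z').encard = Fintype.card E := le_antisymm h2 (h1.trans (M.eRk_le_encard _))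
    have h6 : (Finset.univ.image z').card = Fintype.card E := by
      have h7 : ((Finset.univ.image z' : Finset ℂ) : Set ℂ) = Set.range z' := by
        simp
      rw [← h7, Set.encard_coe_eq_coe_finsetCard] at h5
      exact_mod_cast h5
    have h8 := Finset.card_image_iff.mp (by rw [h6, Finset.card_univ] :
      (Finset.univ.image z').card = (Finset.univ : Finset E).card)
    intro a b hab
    exact h8 (Finset.mem_coe.mpr (Finset.mem_univ a)) (Finset.mem_coe.mpr (Finset.mem_univ b)) hab
  exact (algebraicIndependent_subtype_range hinj).mp hind

end Pool.Agent.H62.Log
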