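import Pool.Agent.H62.Log.Cert

/-!
# Equations assigned to boundary components

An equation `G` which is not used in a block is the product of linear forms `w - N_i(x)` plus a
small multiple of a power of a linear form which vanishes on a boundary component.
-/

open Polynomial Topology Filter

namespace Pool.Agent.H62.Log

open Pool.Agent.H17 Pool.Agent.H17.EntFun Pool.Agent.H92.GGL Pool.Agent.H79.Log

/-- Index type of the generic linear forms: the factors of the boundary forms, and the factors of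
the assigned equations. -/
abbrev LIdx {c m : ℕ} (d : Fin c → ℕ) (δ : Fin m → ℕ) : Type :=
  (Σ j : Fin m, Fin (δ j)) ⊕ (Σ l : Fin c, Fin (d l))

variable {n c m : ℕ} {d : Fin c → ℕ} {δ : Fin m → ℕ}

/-- The linear form `w_l - N_{l,i}`. -/
noncomputable def factForm (M : LIdx d δ → Fin (n + 1) → ℂ) (l : Fin c) (i : Fin (d l)) :
    MvPolynomial (Fin (n + c + 1)) ℂ :=
  MvPolynomial.X (wIdx l) - baseLin c (M (Sum.inr ⟨l, i⟩))

lemma factForm_isHomogeneous (M : LIdx d δ → Fin (n + 1) → ℂ) (l : Fin c) (i : Fin (d l)) :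
    (factForm M l i).IsHomogeneous 1 :=
  (MvPolynomial.isHomogeneous_X _ _).sub (baseLin_isHomogeneous c _)

lemma aeval_factForm (M : LIdx d δ → Fin (n + 1) → ℂ) (l : Fin c) (i : Fin (d l))
    (x : Fin (n + c + 1) → EntFun) : MvPolynomial.aeval x (factForm M l i) =
      x (wIdx l) - linE (M (Sum.inr ⟨l, i⟩)) fun k => x (xIdx k) := by
  unfold factForm
  rw [map_sub, MvPolynomial.aeval_X, aeval_baseLin]

/-- The product of the linear forms `w_l - N_{l,i}`. -/
noncomputable def prodForm (M : LIdx d δ → Fin (n + 1) → ℂ) (l : Fin c) :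
    MvPolynomial (Fin (n + c + 1)) ℂ := ∏ i : Fin (d l), factForm M l i

lemma prodForm_isHomogeneous (M : LIdx d δ → Fin (n + 1) → ℂ) (l : Fin c) :
    (prodForm M l).IsHomogeneous (d l) := by
  have h1 := MvPolynomial.IsHomogeneous.prod Finset.univ (fun i : Fin (d l) => factForm M l i)
    (fun _ => 1) (fun i _ => factForm_isHomogeneous M l i)
  rwa [Finset.sum_const, Finset.card_univ, Fintype.card_fin, smul_eq_mul, mul_one] at h1

/-- The equation with index `l` which is assigned to a boundary component. -/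
noncomputable def asgForm (M : LIdx d δ → Fin (n + 1) → ℂ) (l : Fin c)
    (b : Σ j : Fin m, Fin (δ j)) (ε : ℂ) : MvPolynomial (Fin (n + c + 1)) ℂ :=
  prodForm M l + MvPolynomial.C ε * baseLin c (M (Sum.inl b)) ^ d l

lemma asgForm_isHomogeneous (M : LIdx d δ → Fin (n + 1) → ℂ) (l : Fin c)
    (b : Σ j : Fin m, Fin (δ j)) (ε : ℂ) : (asgForm M l b ε).IsHomogeneous (d l) := by
  refine (prodForm_isHomogeneous M l).add ?_
  have h1 := (baseLin_isHomogeneous c (M (Sum.inl b))).pow (d l)
  rw [one_mul] at h1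
  have h2 := (MvPolynomial.isHomogeneous_C (Fin (n + c + 1)) ε).mul h1
  rwa [zero_add] at h2

/-- The boundary forms. -/
noncomputable def bdForm (c : ℕ) {d : Fin c → ℕ} (M : LIdx d δ → Fin (n + 1) → ℂ) (j : Fin m) :
    MvPolynomial (Fin (n + c + 1)) ℂ := ∏ i : Fin (δ j), baseLin c (M (Sum.inl ⟨j, i⟩))

lemma bdForm_isHomogeneous (M : LIdx d δ → Fin (n + 1) → ℂ) (j : Fin m) :
    (bdForm c M j).IsHomogeneous (δ j) := by
  have h1 := MvPolynomial.IsHomogeneous.prod Finset.univ
    (fun i : Fin (δ j) => baseLin c (M (Sum.inl ⟨j, i⟩)))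
    (fun _ => 1) (fun i _ => baseLin_isHomogeneous c _)
  rwa [Finset.sum_const, Finset.card_univ, Fintype.card_fin, smul_eq_mul, mul_one] at h1

/-- The coefficients of the linear forms along the component `w_l = N_{l,T l}`. -/
noncomputable def shiftM (M : LIdx d δ → Fin (n + 1) → ℂ) (T : ∀ l, Fin (d l)) :
    LIdx d δ → Fin (n + 1) → ℂ :=
  Sum.elim (fun b => M (Sum.inl b)) fun b =>
    if b.2 = T b.1 then M (Sum.inr b) else fun k => M (Sum.inr ⟨b.1, T b.1⟩) k - M (Sum.inr b) k

lemma shift_algebraicIndependent {Q' : Type} [Fintype Q'] {r' : Q' → ℕ}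
    {z : Entry₂ r' n (LIdx d δ) → ℂ} (hz : AlgebraicIndependent ℚ z) (T : ∀ l, Fin (d l)) :
    AlgebraicIndependent ℚ (Sum.elim (fun e => z (Sum.inl e))
      (fun p => shiftM (fun b k => z (Sum.inr (b, k))) T p.1 p.2) : Entry₂ r' n (LIdx d δ) → ℂ) := by
  classical
  refine algebraicIndependent_of_mem_adjoin hz ?_
  set z' : Entry₂ r' n (LIdx d δ) → ℂ := Sum.elim (fun e => z (Sum.inl e))
    (fun p => shiftM (fun b k => z (Sum.inr (b, k))) T p.1 p.2) with hz'
  have hmem : ∀ e, z' e ∈ Algebra.adjoin ℚ (Set.range z') := fun e =>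
    Algebra.subset_adjoin ⟨e, rfl⟩
  have hT : ∀ l k, z (Sum.inr (Sum.inr ⟨l, T l⟩, k)) ∈ Algebra.adjoin ℚ (Set.range z') := by
    intro l k
    have h1 := hmem (Sum.inr (Sum.inr ⟨l, T l⟩, k))
    simp only [hz', Sum.elim_inr, shiftM, if_true] at h1
    exact h1
  rintro (e | ⟨b | b, k⟩)
  · exact hmem (Sum.inl e)
  · exact hmem (Sum.inr (Sum.inl b, k))
  · by_cases hb : b.2 = T b.1
    · have h1 := hT b.1 k
      rwa [← hb] at h1
    · have h1 := hmem (Sum.inr (Sum.inr b, k))
      simp only [hz', Sum.elim_inr, shiftM, if_neg hb] at h1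
      have h2 := sub_mem (hT b.1 k) h1
      rwa [sub_sub_cancel] at h2

end Pool.Agent.H62.Log
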