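import Pool.Agent.H17.BrodyLimit

/-!
# Points outside the boundary

Near a point where the gradients are linearly independent there are points of the zero locus
outside the boundary.
-/

open Topology Filter

namespace Pool.Agent.H62.Log

open Pool.Agent.H17

variable {N : ℕ}

/-- The differential of a polynomial function. -/
noncomputable def dEval (P : MvPolynomial (Fin (N + 1)) ℂ) (x : Fin (N + 1) → ℂ) :
    (Fin (N + 1) → ℂ) →L[ℂ] ℂ :=
  LinearMap.toContinuousLinearMap
    { toFun := fun y => ∑ j, MvPolynomial.eval x (MvPolynomial.pderiv j P) * y j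
      map_add' := fun y y' => by
        simp only [Pi.add_apply, mul_add, Finset.sum_add_distrib]
      map_smul' := fun r y => by
        simp only [Pi.smul_apply, smul_eq_mul, RingHom.id_apply, Finset.mul_sum]
        exact Finset.sum_congr rfl fun j _ => by ring }

lemma dEval_apply (P : MvPolynomial (Fin (N + 1)) ℂ) (x y : Fin (N + 1) → ℂ) :
    dEval P x y = ∑ j, MvPolynomial.eval x (MvPolynomial.pderiv j P) * y j := rfl

/-- The strict derivative of a polynomial function. -/
lemma hasStrictFDerivAt_eval (P : MvPolynomial (Fin (N + 1)) ℂ) (x : Fin (N + 1) → ℂ) :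
    HasStrictFDerivAt (fun y : Fin (N + 1) → ℂ => MvPolynomial.eval y P) (dEval P x) x := by
  induction P using MvPolynomial.induction_on with
  | C a =>
    have h1 : dEval (MvPolynomial.C a) x = 0 := by
      ext1 y
      rw [dEval_apply]
      simp
    rw [h1]
    simp only [MvPolynomial.eval_C]
    exact hasStrictFDerivAt_const a x
  | add p q hp hq =>
    have h1 : dEval (p + q) x = dEval p x + dEval q x := by
      ext1 y
      rw [ContinuousLinearMap.add_apply, dEval_apply, dEval_apply, dEval_apply,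
        ← Finset.sum_add_distrib]
      exact Finset.sum_congr rfl fun j _ => by rw [map_add, map_add, add_mul]
    rw [h1]
    simp only [map_add]
    exact hp.add hq
  | mul_X p i hp =>
    have h1 := hp.mul ((ContinuousLinearMap.proj (R := ℂ) (φ := fun _ : Fin (N + 1) => ℂ)
      i).hasStrictFDerivAt (x := x))
    simp only [map_mul, MvPolynomial.eval_X]
    refine h1.congr_fderiv ?_
    ext1 y
    rw [dEval_apply]
    have h2 : ∀ j, MvPolynomial.eval x (MvPolynomial.pderiv j (p * MvPolynomial.X i)) * y j =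
        (if j = i then MvPolynomial.eval x p * y j else 0) +
          x i * (MvPolynomial.eval x (MvPolynomial.pderiv j p) * y j) := by
      intro j
      rw [Derivation.leibniz, MvPolynomial.pderiv_X]
      simp only [smul_eq_mul, map_add, map_mul, MvPolynomial.eval_X, Pi.single_apply]
      by_cases hj : j = i
      · subst hj
        simp only [if_true, map_one, mul_one]
        ring
      · rw [if_neg hj, if_neg (Ne.symm hj)]
        simp only [map_zero, mul_zero, zero_add]
        ring
    rw [Finset.sum_congr rfl fun j _ => h2 j, Finset.sum_add_distrib,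
      Finset.sum_ite_eq' Finset.univ i, if_pos (Finset.mem_univ _), ← Finset.mul_sum,
      ← dEval_apply]
    simp only [ContinuousLinearMap.proj_apply, ContinuousLinearMap.add_apply,
      ContinuousLinearMap.smul_apply, smul_eq_mul]

/-- **Points outside the boundary.** -/
theorem exists_ne_of_independent {c m : ℕ} {G : Fin c → MvPolynomial (Fin (N + 1)) ℂ}
    {H : Fin m → MvPolynomial (Fin (N + 1)) ℂ} {x : Fin (N + 1) → ℂ} (hx : x ≠ 0)
    (hxG : ∀ l, MvPolynomial.eval x (G l) = 0)
    (h : ∀ (α : Fin c → ℂ) (β : Fin m → ℂ), (∀ l, MvPolynomial.eval x (H l) ≠ 0 → β l = 0) →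
      (∀ j, ∑ l, α l * MvPolynomial.eval x (MvPolynomial.pderiv j (G l)) +
        ∑ l, β l * MvPolynomial.eval x (MvPolynomial.pderiv j (H l)) = 0) → α = 0 ∧ β = 0) :
    ∃ y : Fin (N + 1) → ℂ, y ≠ 0 ∧ (∀ l, MvPolynomial.eval y (G l) = 0) ∧
      ∀ l, MvPolynomial.eval y (H l) ≠ 0 := by
  classical
  set J : Type := {l : Fin m // MvPolynomial.eval x (H l) = 0} with hJ
  set Φ : (Fin (N + 1) → ℂ) → (Fin c → ℂ) × (J → ℂ) := fun y =>
    (fun l => MvPolynomial.eval y (G l), fun l => MvPolynomial.eval y (H l.1)) with hΦ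
  set Φ' : (Fin (N + 1) → ℂ) →L[ℂ] (Fin c → ℂ) × (J → ℂ) :=
    (ContinuousLinearMap.pi fun l => dEval (G l) x).prod
      (ContinuousLinearMap.pi fun l : J => dEval (H l.1) x) with hΦ'
  have hder : HasStrictFDerivAt Φ Φ' x := by
    refine HasStrictFDerivAt.prodMk ?_ ?_
    · exact hasStrictFDerivAt_pi.mpr fun l => hasStrictFDerivAt_eval (G l) x
    · exact hasStrictFDerivAt_pi.mpr fun l : J => hasStrictFDerivAt_eval (H l.1) x
  have hDapply : ∀ (P : MvPolynomial (Fin (N + 1)) ℂ) (j : Fin (N + 1)),
      dEval P x (Pi.single j 1) = MvPolynomial.eval x (MvPolynomial.pderiv j P) := by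
    intro P j
    rw [dEval_apply]
    simp only [Pi.single_apply, mul_ite, mul_one, mul_zero]
    rw [Finset.sum_ite_eq' Finset.univ j, if_pos (Finset.mem_univ _)]
  have hsurj : LinearMap.range (Φ' : (Fin (N + 1) → ℂ) →ₗ[ℂ] (Fin c → ℂ) × (J → ℂ)) = ⊤ := by
    by_contra hcon
    have hlt : LinearMap.range (Φ' : (Fin (N + 1) → ℂ) →ₗ[ℂ] (Fin c → ℂ) × (J → ℂ)) < ⊤ :=
      lt_top_iff_ne_top.mpr hcon
    obtain ⟨f, hf0, hf⟩ := Submodule.exists_le_ker_of_lt_top _ hlt
    apply hf0
    set α : Fin c → ℂ := fun l => f (Pi.single l 1, 0) with hα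
    set β' : J → ℂ := fun l => f (0, Pi.single l 1) with hβ'
    have hfexp : ∀ (a : Fin c → ℂ) (b : J → ℂ), f (a, b) = ∑ l, α l * a l + ∑ l, β' l * b l := by
      intro a b
      have h1 : ((a, b) : (Fin c → ℂ) × (J → ℂ)) =
          ∑ l, a l • ((Pi.single l 1, 0) : (Fin c → ℂ) × (J → ℂ)) +
          ∑ l, b l • ((0, Pi.single l 1) : (Fin c → ℂ) × (J → ℂ)) := by
        ext l
        · simp [Prod.fst_sum, Finset.sum_apply, Pi.single_apply]
        · simp only [Prod.snd_add, Prod.snd_sum, Prod.smul_mk, smul_zero, Finset.sum_const_zero,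
            zero_add, Finset.sum_apply, Pi.smul_apply, Pi.single_apply, smul_eq_mul, mul_ite,
            mul_one, mul_zero]
          rw [Finset.sum_ite_eq Finset.univ l, if_pos (Finset.mem_univ _)]
      rw [h1, map_add, map_sum, map_sum]
      congr 1
      · exact Finset.sum_congr rfl fun l _ => by rw [map_smul, smul_eq_mul, mul_comm]
      · exact Finset.sum_congr rfl fun l _ => by rw [map_smul, smul_eq_mul, mul_comm]
    set β : Fin m → ℂ := fun l => if hl : MvPolynomial.eval x (H l) = 0 then β' ⟨l, hl⟩ else 0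
      with hβ
    have hβsum : ∀ F : Fin m → ℂ, ∑ l, β l * F l = ∑ l : J, β' l * F l.1 := by
      intro F
      have h1 : ∀ l ∈ (Finset.univ : Finset (Fin m)), l ∉ Finset.univ.filter
          (fun l => MvPolynomial.eval x (H l) = 0) → β l * F l = 0 := by
        intro l _ hl
        have h2 : ¬ MvPolynomial.eval x (H l) = 0 := fun h3 =>
          hl (Finset.mem_filter.mpr ⟨Finset.mem_univ _, h3⟩)
        simp only [hβ]
        rw [dif_neg h2, zero_mul]
      rw [← Finset.sum_subset (Finset.filter_subset (fun l => MvPolynomial.eval x (H l) = 0)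
        Finset.univ) h1]
      rw [Finset.sum_subtype (p := fun l => MvPolynomial.eval x (H l) = 0) _ (fun l => by simp)]
      refine Finset.sum_congr rfl fun l _ => ?_
      simp only [hβ]
      rw [dif_pos l.2]
    obtain ⟨hα0, hβ0⟩ := h α β (fun l hl => by simp only [hβ]; rw [dif_neg hl]) (fun j => by
      rw [hβsum fun l => MvPolynomial.eval x (MvPolynomial.pderiv j (H l))]
      have h1 : f (Φ' (Pi.single j 1)) = 0 := hf ⟨Pi.single j 1, rfl⟩
      have h2 : Φ' (Pi.single j 1) = (fun l => MvPolynomial.eval x (MvPolynomial.pderiv j (G l)),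
          fun l : J => MvPolynomial.eval x (MvPolynomial.pderiv j (H l.1))) := by
        ext l
        · exact hDapply (G l) j
        · exact hDapply (H l.1) j
      rw [h2, hfexp] at h1
      exact h1)
    have hβ'0 : ∀ l : J, β' l = 0 := by
      intro l
      have h1 := congrFun hβ0 l.1
      simp only [hβ, Pi.zero_apply] at h1
      rwa [dif_pos l.2] at h1
    refine LinearMap.ext fun p => ?_
    rw [← Prod.mk.eta (p := p), hfexp, LinearMap.zero_apply]
    simp only [hβ'0, zero_mul, Finset.sum_const_zero, add_zero]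
    refine Finset.sum_eq_zero fun l _ => ?_
    rw [hα0, Pi.zero_apply, zero_mul]
  have hmap := hder.map_nhds_eq_of_surj hsurj
  have hU : ∀ᶠ y in 𝓝 x, y ≠ 0 ∧ ∀ l : Fin m, MvPolynomial.eval x (H l) ≠ 0 →
      MvPolynomial.eval y (H l) ≠ 0 := by
    refine (continuousAt_id.eventually_ne hx).and (Filter.eventually_all.mpr fun l => ?_)
    by_cases hl : MvPolynomial.eval x (H l) = 0
    · exact Filter.Eventually.of_forall fun y h1 => absurd hl h1
    · have h1 := (hasStrictFDerivAt_eval (H l) x).continuousAt.eventually_ne hl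
      exact h1.mono fun y hy _ => hy
  have h1 : Φ '' {y | y ≠ 0 ∧ ∀ l : Fin m, MvPolynomial.eval x (H l) ≠ 0 →
      MvPolynomial.eval y (H l) ≠ 0} ∈ 𝓝 (Φ x) := by
    rw [← hmap]
    exact Filter.image_mem_map hU
  have hΦx : Φ x = (0, 0) := by
    ext l
    · exact hxG l
    · exact l.2
  rw [hΦx] at h1
  have hcurve : Tendsto (fun t : ℂ => ((0, fun _ => t) : (Fin c → ℂ) × (J → ℂ))) (𝓝[≠] 0)
      (𝓝 (0, 0)) := by
    have h2 : Continuous fun t : ℂ => ((0, fun _ => t) : (Fin c → ℂ) × (J → ℂ)) := by
      refine continuous_const.prodMk ?_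
      exact continuous_pi fun _ => continuous_id
    have h3 := (h2.tendsto (0 : ℂ)).mono_left (nhdsWithin_le_nhds (s := {(0 : ℂ)}ᶜ))
    exact h3
  obtain ⟨t, ⟨y, ⟨hy0, hyH⟩, hyΦ⟩, ht⟩ := ((hcurve.eventually h1).and self_mem_nhdsWithin).exists
  refine ⟨y, hy0, fun l => ?_, fun l => ?_⟩
  · exact congrFun (congrArg Prod.fst hyΦ) l
  · by_cases hl : MvPolynomial.eval x (H l) = 0
    · have h2 := congrFun (congrArg Prod.snd hyΦ) (⟨l, hl⟩ : J)
      have h3 : MvPolynomial.eval y (H l) = t := h2
      rw [h3]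
      exact ht
    · exact hyH l hl

end Pool.Agent.H62.Log
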