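import Pool.Agent.H62.Log.AlgIndep
import Pool.Agent.H62.Log.Stability
import Pool.Agent.H79.Log.StratBlocks

/-!
# Linear forms in the base variables
-/

open Polynomial Topology Filter

namespace Pool.Agent.H62.Log

open Pool.Agent.H17 Pool.Agent.H17.EntFun Pool.Agent.H92.GGL Pool.Agent.H79.Log

lemma linE_sub {n : ℕ} (M M' : Fin (n + 1) → ℂ) (x : Fin (n + 1) → EntFun) :
    linE (fun k => M k - M' k) x = linE M x - linE M' x := by
  unfold linE
  rw [← Finset.sum_sub_distrib]
  exact Finset.sum_congr rfl fun k _ => by rw [map_sub]; ring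

/-- A linear combination of multiples of `v`. -/
lemma exists_linE_eq {n : ℕ} (M : Fin (n + 1) → ℂ) {x : Fin (n + 1) → EntFun} {v : EntFun}
    (h : ∀ k, ∃ a : ℂ, x k = algebraMap ℂ EntFun a * v) :
    ∃ b : ℂ, linE M x = algebraMap ℂ EntFun b * v := by
  choose a ha using h
  refine ⟨∑ k, M k * a k, ?_⟩
  unfold linE
  rw [map_sum, Finset.sum_mul]
  refine Finset.sum_congr rfl fun k _ => ?_
  rw [map_mul]
  conv_lhs => rw [ha k]
  ring

end Pool.Agent.H62.Log
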