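import Pool.Agent.H62.Log.Main

/-!
# Hyperbolic complements of divisors in complete intersections

Let `G` be a system of `c` forms of degrees `d l` and `H` a system of `m` forms of degrees `δ j` in
`n + c + 1` variables.  Under numerical conditions there are non-empty open sets of pairs `(G, H)`
such that the zero locus `X` of `G` is a smooth complete intersection of dimension `n`, the forms
`H` cut out a divisor `D` with normal crossings on `X`, and `X ∖ D` and all other strata of
`(X, D)` are Brody hyperbolic and Picard hyperbolic.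
-/

namespace Pool.Agent.H62.Log

open Pool.Agent.H17 Pool.Agent.H92.GGL Pool.Agent.H79.Log

/-- **Open sets of hyperbolic pairs.** -/
theorem exists_log_gluing (n c m : ℕ) (d : Fin c → ℕ) (hd : ∀ l, 1 ≤ d l) (δ : Fin m → ℕ)
    (hδ : ∀ j, 1 ≤ δ j) (a b : ℕ)
    (I : Fin a → Finset (Fin c)) (J : Fin b → Finset (Fin c)) (K : Finset (Fin c)) (r : Fin c → ℕ)
    (L : Fin m → Finset (Fin c))
    (hI : ∀ q, 3 ≤ ∑ l ∈ I q, (d l - 1)) (hJ : ∀ q, 5 ≤ ∑ l ∈ J q, (d l - 2))
    (hK : ∀ l ∈ K, ∃ g : MvPolynomial (Fin (r l + 2)) ℂ, g.IsHomogeneous (d l) ∧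
      BrodyHyperbolic (zeroLocus fun _ : Unit => g))
    (hII : ∀ q q', q ≠ q' → Disjoint (I q) (I q')) (hJJ : ∀ q q', q ≠ q' → Disjoint (J q) (J q'))
    (hLL : ∀ j j', j ≠ j' → Disjoint (L j) (L j'))
    (hIJ : ∀ q q', Disjoint (I q) (J q')) (hIK : ∀ q, Disjoint (I q) K)
    (hJK : ∀ q, Disjoint (J q) K) (hIL : ∀ q j, Disjoint (I q) (L j))
    (hJL : ∀ q j, Disjoint (J q) (L j)) (hKL : ∀ j, Disjoint K (L j))
    (hn : ∀ S : Finset (Fin m), 2 * n ≤ a + 2 * b + ∑ l ∈ K, r l + 2 * S.card +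
      (∑ j ∈ Sᶜ, (δ j + ∑ l ∈ L j, (d l - 1)) - 2) + 1) :
    ∃ (G₀ : Fin c → MvPolynomial (Fin (n + c + 1)) ℂ)
      (H₀ : Fin m → MvPolynomial (Fin (n + c + 1)) ℂ), (∀ l, (G₀ l).IsHomogeneous (d l)) ∧
      (∀ j, (H₀ j).IsHomogeneous (δ j)) ∧
      ∃ ε > 0, ∀ (G : Fin c → MvPolynomial (Fin (n + c + 1)) ℂ)
        (H : Fin m → MvPolynomial (Fin (n + c + 1)) ℂ),
        (∀ l, (G l).IsHomogeneous (d l)) → (∀ j, (H j).IsHomogeneous (δ j)) →
        (∀ l i, ‖(G l).coeff i - (G₀ l).coeff i‖ < ε) →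
        (∀ j i, ‖(H j).coeff i - (H₀ j).coeff i‖ < ε) →
        (openPart G H).Nonempty ∧ SmoothPair G H ∧
          ∀ S : Set (Fin m), BrodyHyperbolic (stratum G H S) ∧ PicardHyperbolic (stratum G H S) := by
  apply open_of_strat hd hδ
  refine exists_strat_bonus (Q := Fin a ⊕ Fin b) n c m d hd δ hδ (Sum.elim (fun _ => 1) fun _ => 2)
    ?_ (Sum.elim I J) ?_ K r ?_ L hLL ?_ hKL ?_ ?_ hK
  · rintro (q | q)
    · exact one_le_two
    · exact le_rfl
  · rintro (q | q) (q' | q') hne
    · exact hII q q' fun h => hne (by rw [h])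
    · exact hIJ q q'
    · exact (hIJ q' q).symm
    · exact hJJ q q' fun h => hne (by rw [h])
  · rintro (q | q)
    · exact hIK q
    · exact hJK q
  · rintro (q | q) j
    · exact hIL q j
    · exact hJL q j
  · intro S
    rw [Fintype.sum_sum_type]
    simp only [Sum.elim_inl, Sum.elim_inr, Finset.sum_const, Finset.card_univ, Fintype.card_fin,
      smul_eq_mul, mul_one]
    have h1 := hn S
    omega
  · rintro (q | q) e ρ he hρ heρ
    · -- curves
      simp only [Sum.elim_inl] at heρ ⊢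
      have he1 : e = 1 := by omega
      have hρ1 : ρ = 1 := by omega
      subst he1 hρ1
      have h1 : ∑ l ∈ I q, (d l - 1) + ∑ l ∈ I q, min (d l) (1 * 1) = ∑ l ∈ I q, d l := by
        rw [← Finset.sum_add_distrib]
        refine Finset.sum_congr rfl fun l _ => ?_
        have := hd l
        omega
      have h2 := hI q
      omega
    · -- surfaces
      simp only [Sum.elim_inr] at heρ ⊢
      have h1 : ∑ l ∈ J q, (d l - 2) + ∑ l ∈ J q, min (d l) 2 = ∑ l ∈ J q, d l := by
        rw [← Finset.sum_add_distrib]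
        exact Finset.sum_congr rfl fun l _ => by omega
      have h2 := hJ q
      have h3 : ∑ l ∈ J q, min (d l) (e * ρ) ≤ ∑ l ∈ J q, min (d l) 2 := by
        refine Finset.sum_le_sum fun l _ => min_le_min_left _ ?_
        have he2 : e = 1 ∨ e = 2 := by omega
        rcases he2 with rfl | rfl
        · omega
        · omega
      omega

end Pool.Agent.H62.Log
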