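import Pool.Agent.H62.Log.Hurwitz

/-!
# Limits of holomorphic curves in families of projective algebraic sets with boundary
-/

open Topology Filter

namespace Pool.Agent.H62.Log

open Pool.Agent.H17

variable {N : ℕ}

/-- Each of the forms `H i` vanishes identically along `f` on `U`, or has no zero along `f` on
`U`. -/
def InOut {ι : Type} (H : ι → MvPolynomial (Fin (N + 1)) ℂ) (f : ℂ → PN N) (U : Set ℂ) : Prop :=
  ∀ i, (∀ z ∈ U, VanishesAt (H i) (f z)) ∨ ∀ z ∈ U, ¬ VanishesAt (H i) (f z)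

lemma InOut.comp {ι : Type} {H : ι → MvPolynomial (Fin (N + 1)) ℂ} {f : ℂ → PN N} {V U : Set ℂ}
    (hf : InOut H f V) {u : ℂ → ℂ} (hUV : ∀ z ∈ U, u z ∈ V) : InOut H (fun z => f (u z)) U := by
  intro i
  rcases hf i with h | h
  · exact Or.inl fun z hz => h _ (hUV z hz)
  · exact Or.inr fun z hz => h _ (hUV z hz)

lemma differentiableOn_eval {v : ℂ → Fin (N + 1) → ℂ} {s : Set ℂ} (hv : DifferentiableOn ℂ v s)
    (P : MvPolynomial (Fin (N + 1)) ℂ) :
    DifferentiableOn ℂ (fun z => MvPolynomial.eval (v z) P) s := by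
  have hvi : ∀ i, DifferentiableOn ℂ (fun z => v z i) s := differentiableOn_pi.mp hv
  induction P using MvPolynomial.induction_on with
  | C a => simp only [MvPolynomial.eval_C]; exact differentiableOn_const a
  | add p q hp hq => simp only [map_add]; exact hp.add hq
  | mul_X p i hp => simp only [map_mul, MvPolynomial.eval_X]; exact hp.mul (hvi i)

lemma eval_chart_ne_zero {P : MvPolynomial (Fin (N + 1)) ℂ} {d : ℕ} (hP : P.IsHomogeneous d)
    {x : PN N} (hx : ¬ VanishesAt P x) {i : Fin (N + 1)} (hi : x.rep i ≠ 0) :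
    MvPolynomial.eval (chart i x) P ≠ 0 := by
  unfold chart
  have h2 : ((x.rep i)⁻¹ • x.rep) = fun k => (x.rep i)⁻¹ * x.rep k := by
    funext k
    simp
  rw [h2, eval_smul_of_isHomogeneous hP]
  exact mul_ne_zero (pow_ne_zero _ (inv_ne_zero hi)) hx

/-- **The limit curve.** -/
theorem brody_limit_log {κ ι : Type} {d : κ → ℕ} {e : ι → ℕ} {Gk : ℕ → κ → MvPolynomial (Fin (N + 1)) ℂ}
    {G : κ → MvPolynomial (Fin (N + 1)) ℂ} (hGk : ∀ k l, (Gk k l).IsHomogeneous (d l))
    (hG : ∀ l, (G l).IsHomogeneous (d l))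
    (hlim : ∀ l m, Tendsto (fun k => (Gk k l).coeff m) atTop (𝓝 ((G l).coeff m)))
    {Hk : ℕ → ι → MvPolynomial (Fin (N + 1)) ℂ} {H : ι → MvPolynomial (Fin (N + 1)) ℂ}
    (hHk : ∀ k l, (Hk k l).IsHomogeneous (e l)) (hH : ∀ l, (H l).IsHomogeneous (e l))
    (hlimH : ∀ l m, Tendsto (fun k => (Hk k l).coeff m) atTop (𝓝 ((H l).coeff m)))
    {g : ℕ → ℂ → PN N} {K : ℕ → ℝ} (hK : Tendsto K atTop atTop)
    (hg : ∀ k, HolomorphicInto (g k) (Metric.ball 0 (K k + 1)))
    (hgX : ∀ k, ∀ z ∈ Metric.ball (0 : ℂ) (K k + 1), g k z ∈ zeroLocus (Gk k))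
    (hgH : ∀ k, InOut (Hk k) (g k) (Metric.ball 0 (K k + 1)))
    (hsep : ∀ k, ∀ ζ ∈ Metric.ball (0 : ℂ) (K k), ∀ w ∈ Metric.ball ζ (1 / 2),
      sep (g k w) (g k ζ) ≤ 1 / 2)
    {δ : ℝ} (hδ : 0 < δ) {ζ₁ : ℕ → ℂ} (hζ : ∀ k, ζ₁ k ∈ Metric.ball (0 : ℂ) 1)
    (hfar : ∀ k, δ < sep (g k (ζ₁ k)) (g k 0)) :
    ∃ f : ℂ → PN N, HolomorphicInto f Set.univ ∧ (∀ z, f z ∈ zeroLocus G) ∧
      InOut H f Set.univ ∧ ∃ z w, f z ≠ f w := by
  classical
  set 𝒰 : Ultrafilter ℕ := hyperfilter ℕ with h𝒰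
  have h𝒰top : (𝒰 : Filter ℕ) ≤ atTop := by
    rw [← Nat.cofinite_eq_atTop]
    exact hyperfilter_le_cofinite
  have hKev : ∀ a : ℂ, ∀ᶠ k in (𝒰 : Filter ℕ), a ∈ Metric.ball (0 : ℂ) (K k) := by
    intro a
    have h1 : ∀ᶠ k in atTop, ‖a‖ < K k := hK.eventually_gt_atTop ‖a‖
    filter_upwards [h𝒰top h1] with k hk
    rw [mem_ball_zero_iff]
    exact hk
  -- the dominating coordinate
  have hidx : ∀ a, ∃ i, ∀ᶠ k in (𝒰 : Filter ℕ), ‖(g k a).rep i‖ = ‖(g k a).rep‖ := by
    intro a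
    choose m hm using fun k => exists_norm_eq (g k a).rep
    obtain ⟨i, hi⟩ := ultrafilter_exists_eq 𝒰 m
    refine ⟨i, ?_⟩
    filter_upwards [hi] with k hk
    rw [← hk]
    exact hm k
  choose i hi using hidx
  have hdom : ∀ a, ∀ᶠ k in (𝒰 : Filter ℕ), ∀ z ∈ Metric.ball a (1 / 2),
      ‖(g k z).rep‖ ≤ 2 * ‖(g k z).rep (i a)‖ := by
    intro a
    filter_upwards [hKev a, hi a] with k hk1 hk2 z hz
    refine norm_le_two_mul (g k z).rep_nonzero hk2 (g k a).rep_nonzero ?_
    have h1 := hsep k a hk1 z hz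
    rw [sep_comm] at h1
    exact h1
  have hmem : ∀ a, ∀ᶠ k in (𝒰 : Filter ℕ), ∀ z ∈ Metric.ball a (1 / 2),
      z ∈ Metric.ball (0 : ℂ) (K k + 1) := by
    intro a
    filter_upwards [hKev a] with k hk z hz
    rw [mem_ball_zero_iff] at hk ⊢
    rw [mem_ball_iff_norm] at hz
    have h1 : ‖z‖ ≤ ‖z - a‖ + ‖a‖ := by
      have := norm_add_le (z - a) a
      simpa using this
    linarith
  have hdiff : ∀ a, ∀ᶠ k in (𝒰 : Filter ℕ),
      DifferentiableOn ℂ (fun z => chart (i a) (g k z)) (Metric.ball a (1 / 2)) := by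
    intro a
    filter_upwards [hdom a, hmem a] with k hk1 hk2 z hz
    obtain ⟨φ, hφ, he⟩ := hg k z (hk2 z hz)
    exact (analyticAt_chart hφ he (rep_ne_zero_of_norm_le
      (hk1 z hz))).differentiableAt.differentiableWithinAt
  have hbdd : ∀ a, ∀ᶠ k in (𝒰 : Filter ℕ), ∀ z ∈ Metric.ball a (1 / 2),
      ‖chart (i a) (g k z)‖ ≤ 2 := by
    intro a
    filter_upwards [hdom a] with k hk z hz
    exact norm_chart_le (hk z hz)
  choose h hhdiff hhconv using fun a => montel_ultrafilter 𝒰 (hdiff a) (hbdd a)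
  have hpt : ∀ a, ∀ z ∈ Metric.ball a (1 / 2),
      Tendsto (fun k => chart (i a) (g k z)) (𝒰 : Filter ℕ) (𝓝 (h a z)) := fun a z hz =>
    (hhconv a).tendsto_at hz
  have hone : ∀ a, ∀ z ∈ Metric.ball a (1 / 2), h a z (i a) = 1 := by
    intro a z hz
    have h1 : Tendsto (fun k => chart (i a) (g k z) (i a)) (𝒰 : Filter ℕ) (𝓝 (h a z (i a))) :=
      ((continuous_apply (i a)).tendsto _).comp (hpt a z hz)
    have h2 : ∀ᶠ k in (𝒰 : Filter ℕ), chart (i a) (g k z) (i a) = 1 := by
      filter_upwards [hdom a] with k hk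
      exact chart_self (rep_ne_zero_of_norm_le (hk z hz))
    exact tendsto_nhds_unique h1 ((tendsto_congr' h2).mpr tendsto_const_nhds)
  have hne : ∀ a, ∀ z ∈ Metric.ball a (1 / 2), h a z ≠ 0 := by
    intro a z hz h0
    have := hone a z hz
    rw [h0] at this
    simp at this
  have hself : ∀ a : ℂ, a ∈ Metric.ball a (1 / 2) := fun a => Metric.mem_ball_self (by norm_num)
  set f : ℂ → PN N := fun z => Projectivization.mk ℂ (h z z) (hne z z (hself z)) with hf
  have hfa : ∀ a, ∀ z, ∀ hz : z ∈ Metric.ball a (1 / 2),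
      f z = Projectivization.mk ℂ (h a z) (hne a z hz) := by
    intro a z hz
    apply mk_eq_of_minors
    have h1 : Tendsto (fun k => minors (chart (i z) (g k z)) (chart (i a) (g k z)))
        (𝒰 : Filter ℕ) (𝓝 (minors (h z z) (h a z))) := by
      have hc : Continuous fun p : (Fin (N + 1) → ℂ) × (Fin (N + 1) → ℂ) => minors p.1 p.2 := by
        refine continuous_pi fun q => ?_
        unfold minors
        fun_prop
      exact (hc.tendsto _).comp ((hpt z z (hself z)).prodMk_nhds (hpt a z hz))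
    have h2 : ∀ k, minors (chart (i z) (g k z)) (chart (i a) (g k z)) = 0 := by
      intro k
      unfold chart
      rw [minors_smul, minors_self, smul_zero]
    simp only [h2] at h1
    exact tendsto_nhds_unique h1 tendsto_const_nhds
  refine ⟨f, ?_, ?_, ?_, ?_⟩
  · -- holomorphic
    intro z₀ _
    refine ⟨h z₀, (hhdiff z₀).analyticAt (Metric.isOpen_ball.mem_nhds (hself z₀)), ?_⟩
    filter_upwards [Metric.isOpen_ball.mem_nhds (hself z₀)] with z hz
    exact ⟨hne z₀ z hz, hfa z₀ z hz⟩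
  · -- in the zero locus
    intro z l
    rw [hf]
    rw [vanishesAt_mk_iff (hG l)]
    have h1 : Tendsto (fun k => MvPolynomial.eval (chart (i z) (g k z)) (Gk k l)) (𝒰 : Filter ℕ)
        (𝓝 (MvPolynomial.eval (h z z) (G l))) :=
      tendsto_eval (fun k => hGk k l) (hG l) (fun m => (hlim l m).mono_left h𝒰top)
        (hpt z z (hself z))
    have h2 : ∀ᶠ k in (𝒰 : Filter ℕ),
        MvPolynomial.eval (chart (i z) (g k z)) (Gk k l) = 0 := by
      filter_upwards [hmem z] with k hk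
      exact eval_chart_eq_zero (hGk k l) (hgX k z (hk z (hself z)) l) _
    exact tendsto_nhds_unique h1 ((tendsto_congr' h2).mpr tendsto_const_nhds)
  · -- the boundary
    intro l
    have hball : ∀ a : ℂ, (∀ z ∈ Metric.ball a (1 / 2), VanishesAt (H l) (f z)) ∨
        ∀ z ∈ Metric.ball a (1 / 2), ¬ VanishesAt (H l) (f z) := by
      intro a
      have hiff : ∀ z ∈ Metric.ball a (1 / 2), (VanishesAt (H l) (f z) ↔
          MvPolynomial.eval (h a z) (H l) = 0) := by
        intro z hz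
        rw [hfa a z hz]
        exact vanishesAt_mk_iff (hH l) _ _
      have hconv : ∀ (y : ℕ → ℂ) (z₀ : ℂ), z₀ ∈ Metric.ball a (1 / 2) →
          Tendsto y (𝒰 : Filter ℕ) (𝓝 z₀) →
          Tendsto (fun k => MvPolynomial.eval (chart (i a) (g k (y k))) (Hk k l))
            (𝒰 : Filter ℕ) (𝓝 (MvPolynomial.eval (h a z₀) (H l))) := by
        intro y z₀ hz₀ hy
        have hyball : ∀ᶠ k in (𝒰 : Filter ℕ), y k ∈ Metric.ball a (1 / 2) :=
          hy.eventually (Metric.isOpen_ball.mem_nhds hz₀)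
        have h1 : Tendsto (fun k => chart (i a) (g k (y k))) (𝒰 : Filter ℕ) (𝓝 (h a z₀)) := by
          refine (hhconv a).tendsto_comp ?_ hz₀ ?_
          · exact (hhdiff a).continuousOn z₀ hz₀
          · exact tendsto_nhdsWithin_iff.mpr ⟨hy, hyball⟩
        exact tendsto_eval (fun k => hHk k l) (hH l) (fun m => (hlimH l m).mono_left h𝒰top) h1
      rcases (𝒰.eventually_or (p := fun k => ∀ z ∈ Metric.ball (0 : ℂ) (K k + 1),
        VanishesAt (Hk k l) (g k z)) (q := fun k => ∀ z ∈ Metric.ball (0 : ℂ) (K k + 1),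
        ¬ VanishesAt (Hk k l) (g k z))).mp (Eventually.of_forall fun k => hgH k l) with hin | hout
      · left
        intro z hz
        rw [hiff z hz]
        have h2 : ∀ᶠ k in (𝒰 : Filter ℕ),
            MvPolynomial.eval (chart (i a) (g k z)) (Hk k l) = 0 := by
          filter_upwards [hmem a, hin] with k hk hk2
          exact eval_chart_eq_zero (hHk k l) (hk2 z (hk z hz)) _
        exact tendsto_nhds_unique (hconv (fun _ => z) z hz tendsto_const_nhds)
          ((tendsto_congr' h2).mpr tendsto_const_nhds)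
      · have h3 : ∀ᶠ k in (𝒰 : Filter ℕ), DifferentiableOn ℂ
            (fun z => MvPolynomial.eval (chart (i a) (g k z)) (Hk k l)) (Metric.ball a (1 / 2)) := by
          filter_upwards [hdiff a] with k hk
          exact differentiableOn_eval hk _
        have h4 : ∀ᶠ k in (𝒰 : Filter ℕ), ∀ z ∈ Metric.ball a (1 / 2),
            MvPolynomial.eval (chart (i a) (g k z)) (Hk k l) ≠ 0 := by
          filter_upwards [hmem a, hout, hdom a] with k hk hk2 hk3 z hz
          exact eval_chart_ne_zero (hHk k l) (hk2 z (hk z hz))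
            (rep_ne_zero_of_norm_le (hk3 z hz))
        rcases hurwitz 𝒰 h3 h4 (differentiableOn_eval (hhdiff a) _) hconv with h5 | h5
        · left
          intro z hz
          rw [hiff z hz]
          exact h5 z hz
        · right
          intro z hz
          rw [hiff z hz]
          exact h5 z hz
    set A : Set ℂ := {z | VanishesAt (H l) (f z)} with hA
    have hclopen : IsClopen A := by
      constructor
      · rw [← isOpen_compl_iff, Metric.isOpen_iff]
        intro z hz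
        refine ⟨1 / 2, by norm_num, fun w hw => ?_⟩
        rcases hball z with h1 | h1
        · exact absurd (h1 z (hself z)) hz
        · exact h1 w hw
      · rw [Metric.isOpen_iff]
        intro z hz
        refine ⟨1 / 2, by norm_num, fun w hw => ?_⟩
        rcases hball z with h1 | h1
        · exact h1 w hw
        · exact absurd hz (h1 z (hself z))
    rcases isClopen_iff.mp hclopen with h1 | h1
    · right
      intro z _ hz
      have : z ∈ A := hz
      rw [h1] at this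
      exact this
    · left
      intro z _
      have : z ∈ A := by rw [h1]; exact Set.mem_univ z
      exact this
  · -- nonconstant
    obtain ⟨ζ', hζ'mem, hζ'⟩ : ∃ ζ' ∈ Metric.closedBall (0 : ℂ) 1,
        Tendsto ζ₁ (𝒰 : Filter ℕ) (𝓝 ζ') := by
      have hmemc : ∀ᶠ k in (𝒰 : Filter ℕ), ζ₁ k ∈ Metric.closedBall (0 : ℂ) 1 :=
        Eventually.of_forall fun k => Metric.ball_subset_closedBall (hζ k)
      obtain ⟨l, hl1, hl2⟩ := (isCompact_closedBall (0 : ℂ) 1).ultrafilter_le_nhds (𝒰.map ζ₁) (by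
        rw [le_principal_iff]
        exact hmemc)
      exact ⟨l, hl1, hl2⟩
    refine ⟨ζ', 0, fun heq => ?_⟩
    have hball : ∀ᶠ k in (𝒰 : Filter ℕ), ζ₁ k ∈ Metric.ball ζ' (1 / 2) :=
      hζ'.eventually (Metric.isOpen_ball.mem_nhds (hself ζ'))
    have h1 : Tendsto (fun k => chart (i ζ') (g k (ζ₁ k))) (𝒰 : Filter ℕ) (𝓝 (h ζ' ζ')) := by
      refine (hhconv ζ').tendsto_comp ?_ (hself ζ') ?_
      · exact (hhdiff ζ').continuousOn ζ' (hself ζ')
      · exact tendsto_nhdsWithin_iff.mpr ⟨hζ', hball⟩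
    have h2 := hpt 0 0 (hself 0)
    have h3 := (continuousAt_sepv (hne ζ' ζ' (hself ζ')) (hne 0 0 (hself 0))).tendsto.comp
      (h1.prodMk_nhds h2)
    have h4 : ∀ᶠ k in (𝒰 : Filter ℕ), δ ≤ ((fun p : (Fin (N + 1) → ℂ) × (Fin (N + 1) → ℂ) =>
        sepv p.1 p.2) ∘ fun k => (chart (i ζ') (g k (ζ₁ k)), chart (i 0) (g k 0))) k := by
      filter_upwards [hdom ζ', hdom 0, hball] with k hk1 hk2 hk3
      have h5 := rep_ne_zero_of_norm_le (hk1 (ζ₁ k) hk3)
      have h6 := rep_ne_zero_of_norm_le (hk2 0 (hself 0))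
      simp only [Function.comp_apply]
      unfold chart
      rw [sepv_smul (inv_ne_zero h5) (inv_ne_zero h6)]
      exact (hfar k).le
    have h7 := ge_of_tendsto h3 h4
    have h8 : sepv (h ζ' ζ') (h 0 0) = 0 := by
      rw [← sep_mk _ _ (hne ζ' ζ' (hself ζ')) (hne 0 0 (hself 0))]
      have h9 : Projectivization.mk ℂ (h ζ' ζ') (hne ζ' ζ' (hself ζ')) =
          Projectivization.mk ℂ (h 0 0) (hne 0 0 (hself 0)) := heq
      rw [h9, sep_self]
    simp only [h8] at h7
    linarith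

end Pool.Agent.H62.Log
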