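import Pool.Agent.H62.Log.Assign

/-!
# Hyperbolic strata from certificates and general position
-/

open Polynomial Topology Filter

namespace Pool.Agent.H62.Log

open Pool.Agent.H17 Pool.Agent.H17.EntFun Pool.Agent.H92.GGL Pool.Agent.H79.Log

variable {n c m : ℕ} {d : Fin c → ℕ} {δ : Fin m → ℕ}

lemma closedForm_tendsto (hδ : ∀ j, 1 ≤ δ j) {L : Fin m → Finset (Fin c)}
    (hL : ∀ j j', j ≠ j' → Disjoint (L j) (L j')) (M : LIdx d δ → Fin (n + 1) → ℂ)
    (Gc : Fin c → MvPolynomial (Fin (n + c + 1)) ℂ) {ε : ℕ → ℂ} (hε : Tendsto ε atTop (𝓝 0))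
    (l : Fin c) (i : Fin (n + c + 1) →₀ ℕ) :
    Tendsto (fun k => (closedForm hδ L M Gc (ε k) l).coeff i) atTop
      (𝓝 ((closedForm hδ L M Gc 0 l).coeff i)) := by
  by_cases h : ∃ j, l ∈ L j
  · obtain ⟨j, hj⟩ := h
    have h1 : ∀ e, (closedForm hδ L M Gc e l).coeff i = (prodForm M l).coeff i +
        e * (baseLin c (M (Sum.inl ⟨j, ⟨0, hδ j⟩⟩)) ^ d l).coeff i := by
      intro e
      rw [closedForm_of_mem hδ hL M Gc e hj]
      unfold asgForm
      rw [MvPolynomial.coeff_add, MvPolynomial.coeff_C_mul]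
    simp only [h1]
    exact tendsto_const_nhds.add (hε.mul tendsto_const_nhds)
  · have h1 : ∀ e, closedForm hδ L M Gc e l = Gc l := fun e =>
      closedForm_of_not_mem hδ M Gc e fun j hj => h ⟨j, hj⟩
    simp only [h1]
    exact tendsto_const_nhds

lemma Cl_tendsto (hδ : ∀ j, 1 ≤ δ j) {L : Fin m → Finset (Fin c)}
    (hL : ∀ j j', j ≠ j' → Disjoint (L j) (L j')) (M : LIdx d δ → Fin (n + 1) → ℂ)
    (Gc : Fin c → MvPolynomial (Fin (n + c + 1)) ℂ) (S : Finset (Fin m)) (t : ∀ j, Fin (δ j))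
    {ε : ℕ → ℂ} (hε : Tendsto ε atTop (𝓝 0)) (l : Fin c ⊕ Fin m) (i : Fin (n + c + 1) →₀ ℕ) :
    Tendsto (fun k => (Cl hδ L M Gc S t (ε k) l).coeff i) atTop
      (𝓝 ((Cl hδ L M Gc S t 0 l).coeff i)) := by
  rcases l with l | j
  · simp only [Cl, Sum.elim_inl]
    exact closedForm_tendsto hδ hL M Gc hε l i
  · simp only [Cl, Sum.elim_inr]
    exact tendsto_const_nhds

/-- **Hyperbolicity of all strata.** -/
theorem stratHyp_of_small {Q' : Type} [Fintype Q'] [DecidableEq Q'] {r' : Q' → ℕ}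
    (hd : ∀ l, 1 ≤ d l) (hδ : ∀ j, 1 ≤ δ j)
    {z : Entry₂ r' n (LIdx d δ) → ℂ} (hz : AlgebraicIndependent ℚ z)
    {L : Fin m → Finset (Fin c)} (hL : ∀ j j', j ≠ j' → Disjoint (L j) (L j'))
    {Gc : Fin c → MvPolynomial (Fin (n + c + 1)) ℂ} (hGc : ∀ l, (Gc l).IsHomogeneous (d l))
    (hcert : ∀ x : Fin (n + c + 1) → EntFun,
      (∀ l, (∀ j, l ∉ L j) → MvPolynomial.aeval x (Gc l) = 0) →
      (∀ q, BlockSpecial (fun e => z (Sum.inl e)) q fun k => x (xIdx k)) ∧
      ∀ v : EntFun, (∀ k, ∃ a : ℂ, x (xIdx k) = algebraMap ℂ EntFun a * v) →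
        ∀ l, (∀ j, l ∉ L j) → ∃ b : ℂ, x (wIdx l) = algebraMap ℂ EntFun b * v)
    (hsum : ∀ S : Finset (Fin m), 2 * n ≤ ∑ q, r' q + 2 * S.card +
      (∑ j ∈ Sᶜ, (δ j + ∑ l ∈ L j, (d l - 1)) - 2) + 1) :
    ∃ (G : Fin c → MvPolynomial (Fin (n + c + 1)) ℂ) (H : Fin m → MvPolynomial (Fin (n + c + 1)) ℂ),
      (∀ l, (G l).IsHomogeneous (d l)) ∧ (∀ j, (H j).IsHomogeneous (δ j)) ∧ StratHyp G H := by
  classical
  set M : LIdx d δ → Fin (n + 1) → ℂ := fun b k => z (Sum.inr (b, k)) with hM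
  set ε : ℕ → ℂ := fun k => 1 / ((k : ℂ) + 1) with hε
  have hε0 : Tendsto ε atTop (𝓝 0) := tendsto_one_div_add_atTop_nhds_zero_nat
  have hev : ∀ᶠ k in atTop, ∀ p : Finset (Fin m) × (∀ j, Fin (δ j)),
      StratHyp (Cl hδ L M Gc p.1 p.2 (ε k)) (Bd L M p.1) := by
    rw [eventually_all]
    rintro ⟨S, t⟩
    exact stratHyp_of_tendsto (fun k => Cl_isHomogeneous hδ L M hGc S t (ε k))
      (Cl_isHomogeneous hδ L M hGc S t 0) (fun l i => Cl_tendsto hδ hL M Gc S t hε0 l i)
      (Hk := fun _ => Bd L M S) (fun _ => Bd_isHomogeneous L M S) (Bd_isHomogeneous L M S)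
      (fun _ _ => tendsto_const_nhds) (stratHyp_zero hd hδ hz hL hGc hcert S t (hsum S))
  obtain ⟨k, hk⟩ := hev.exists
  have hεk : ε k ≠ 0 := by
    simp only [hε]
    exact one_div_ne_zero (by exact_mod_cast Nat.succ_ne_zero k)
  refine ⟨closedForm hδ L M Gc (ε k), bdForm c M,
    closedForm_isHomogeneous hδ L M hGc (ε k), bdForm_isHomogeneous M, ?_⟩
  intro f hf hfX hfH
  obtain ⟨x, hx⟩ := exists_global_lift hf
  have hrel := aeval_eq_zero_of_mem (closedForm_isHomogeneous hδ L M hGc (ε k)) hx hfX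
  have hio := zero_or_ne_of_inOut (bdForm_isHomogeneous M) hx hfH
  have hbd : ∀ j, MvPolynomial.aeval x (bdForm c M j) =
      ∏ i : Fin (δ j), linE (M (Sum.inl ⟨j, i⟩)) fun k => x (xIdx k) := by
    intro j
    unfold bdForm
    rw [map_prod]
    exact Finset.prod_congr rfl fun i _ => aeval_baseLin _ _
  set S : Finset (Fin m) := Finset.univ.filter fun j =>
    MvPolynomial.aeval x (bdForm c M j) = (0 : EntFun) with hS
  have ht : ∀ j, ∃ t : Fin (δ j), j ∈ S →
      linE (M (Sum.inl ⟨j, t⟩)) (fun k => x (xIdx k)) = 0 := by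
    intro j
    by_cases hj : j ∈ S
    · have h1 := (Finset.mem_filter.mp hj).2
      rw [hbd] at h1
      obtain ⟨t, -, ht⟩ := Finset.prod_eq_zero_iff.mp h1
      exact ⟨t, fun _ => ht⟩
    · exact ⟨⟨0, hδ j⟩, fun h => absurd h hj⟩
  choose t ht using ht
  -- the factors of the boundary forms which do not vanish identically have no zeros
  have hfac : ∀ j, j ∉ S → ∀ (i : Fin (δ j)) w,
      (linE (M (Sum.inl ⟨j, i⟩)) (fun k => x (xIdx k)) : ℂ → ℂ) w ≠ 0 := by
    intro j hj i w h0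
    have h1 := (hio j).resolve_left fun h => hj (Finset.mem_filter.mpr ⟨Finset.mem_univ _, h⟩)
    apply h1 w
    have h2 : ev w (MvPolynomial.aeval x (bdForm c M j)) = 0 := by
      rw [hbd, map_prod]
      exact Finset.prod_eq_zero (Finset.mem_univ i) h0
    exact h2
  -- the factors of the assigned equations have no zeros
  have hfac2 : ∀ j, j ∉ S → ∀ l ∈ L j, ∀ (i : Fin (d l)) w,
      ((MvPolynomial.aeval x (factForm M l i) : EntFun) : ℂ → ℂ) w ≠ 0 := by
    intro j hj l hl i w h0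
    have h1 := hrel l
    rw [closedForm_of_mem hδ hL M Gc (ε k) hl] at h1
    unfold asgForm prodForm at h1
    rw [map_add, map_prod, map_mul, map_pow, MvPolynomial.aeval_C, aeval_baseLin] at h1
    have h2 := congrArg (ev w) h1
    rw [map_add, map_prod, Finset.prod_eq_zero (Finset.mem_univ i) h0, zero_add, map_mul, map_pow,
      ev_algebraMap, map_zero] at h2
    rcases mul_eq_zero.mp h2 with h3 | h3
    · exact hεk h3
    · exact hfac j hj ⟨0, hδ j⟩ w (pow_eq_zero_iff (by have := hd l; omega) |>.mp h3)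
  refine hk (S, t) f hf ?_ ?_
  · -- the closed system
    intro w
    rintro (l | j)
    · exact hfX w l
    · show VanishesAt (if j ∈ S then baseLin c (M (Sum.inl ⟨j, t j⟩)) else 0) (f w)
      split_ifs with hj
      · rw [vanishesAt_iff_aeval (baseLin_isHomogeneous c _) hx w, aeval_baseLin, ht j hj]
        rfl
      · unfold VanishesAt
        rw [map_zero]
  · -- the boundary system
    rintro (b | b)
    · right
      intro w _
      show ¬ VanishesAt (if b.1 ∈ S then 1 else baseLin c (M (Sum.inl b))) (f w)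
      split_ifs with hj
      · unfold VanishesAt
        rw [map_one]
        exact one_ne_zero
      · rw [vanishesAt_iff_aeval (baseLin_isHomogeneous c _) hx w, aeval_baseLin]
        exact hfac b.1 hj b.2 w
    · right
      intro w _
      show ¬ VanishesAt (if ∃ j, j ∉ S ∧ b.1 ∈ L j then factForm M b.1 b.2 else 1) (f w)
      split_ifs with hj
      · obtain ⟨j, hjS, hj⟩ := hj
        rw [vanishesAt_iff_aeval (factForm_isHomogeneous M b.1 b.2) hx w]
        exact hfac2 j hjS b.1 hj b.2 w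
      · unfold VanishesAt
        rw [map_one]
        exact one_ne_zero

end Pool.Agent.H62.Log
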