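import Pool.Agent.H62.Log.OpenLog
import Pool.Agent.H62.Log.StratCert

/-!
# Hyperbolic strata from blocks
-/

open Polynomial Topology Filter

namespace Pool.Agent.H62.Log

open Pool.Agent.H17 Pool.Agent.H17.EntFun Pool.Agent.H92.GGL Pool.Agent.H79.Log

/-- **Hyperbolic strata from blocks and from equations assigned to boundary components.** -/
theorem exists_strat_bonus {Q : Type} [Fintype Q] [DecidableEq Q] (n c m : ℕ) (d : Fin c → ℕ)
    (hd : ∀ l, 1 ≤ d l) (δ : Fin m → ℕ) (hδ : ∀ j, 1 ≤ δ j) (r : Q → ℕ) (hr : ∀ q, r q ≤ 2)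
    (B : Q → Finset (Fin c)) (hB : ∀ q q', q ≠ q' → Disjoint (B q) (B q')) (K : Finset (Fin c))
    (ρ : Fin c → ℕ) (hBK : ∀ q, Disjoint (B q) K) (L : Fin m → Finset (Fin c))
    (hL : ∀ j j', j ≠ j' → Disjoint (L j) (L j')) (hBL : ∀ q j, Disjoint (B q) (L j))
    (hKL : ∀ j, Disjoint K (L j))
    (hsum : ∀ S : Finset (Fin m), 2 * n ≤ ∑ q, r q + ∑ l ∈ K, ρ l + 2 * S.card +
      (∑ j ∈ Sᶜ, (δ j + ∑ l ∈ L j, (d l - 1)) - 2) + 1)
    (hnum : ∀ q, ∀ e ρ : ℕ, 0 < e → 0 < ρ → ρ + e ≤ r q + 1 →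
      2 * ρ + ∑ l ∈ B q, min (d l) (e * ρ) < ∑ l ∈ B q, d l)
    (hK : ∀ l ∈ K, ∃ g : MvPolynomial (Fin (ρ l + 2)) ℂ, g.IsHomogeneous (d l) ∧
      ∀ f : ℂ → PN (ρ l + 1), HolomorphicInto f Set.univ →
        (∀ z, f z ∈ zeroLocus fun _ : Unit => g) → ∀ z w, f z = f w) :
    ∃ (G : Fin c → MvPolynomial (Fin (n + c + 1)) ℂ) (H : Fin m → MvPolynomial (Fin (n + c + 1)) ℂ),
      (∀ l, (G l).IsHomogeneous (d l)) ∧ (∀ j, (H j).IsHomogeneous (δ j)) ∧ StratHyp G H := by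
  classical
  obtain ⟨z, hz⟩ := exists_algebraicIndependent (Entry₂ (blockRank r K ρ) n (LIdx d δ))
  have hA : ∀ l, l ∉ Finset.univ.biUnion L ↔ ∀ j, l ∉ L j := by
    intro l
    rw [Finset.mem_biUnion]
    push Not
    exact ⟨fun h j => h j (Finset.mem_univ j), fun h j _ => h j⟩
  obtain ⟨Gc, hGc, hcert⟩ := cert_of_blocks n c d hd r hr B hB K ρ hBK (Finset.univ.biUnion L)
    (fun q => (Finset.disjoint_biUnion_right _ _ _).mpr fun j _ => hBL q j)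
    ((Finset.disjoint_biUnion_right _ _ _).mpr fun j _ => hKL j) hnum hK
    (fun e => z (Sum.inl e))
  refine stratHyp_of_small hd hδ hz hL hGc ?_ ?_
  · intro x hx
    obtain ⟨h1, h2⟩ := hcert x fun l hl => hx l ((hA l).mp hl)
    exact ⟨h1, fun v hv l hl => h2 v hv l ((hA l).mpr hl)⟩
  · intro S
    rw [Fintype.sum_sum_type]
    simp only [Sum.elim_inl, Sum.elim_inr]
    rw [Finset.sum_coe_sort K]
    exact hsum S

end Pool.Agent.H62.Log
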