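import Pool.Agent.H62.Log.Stability

/-!
# Extension across a puncture, with boundary
-/

open Topology Filter

namespace Pool.Agent.H62.Log

open Pool.Agent.H17

variable {N : ℕ}

/-- Oscillation on small circles. -/
lemma circle_oscillation_log {κ ι : Type} {d : κ → ℕ} {e : ι → ℕ}
    {G : κ → MvPolynomial (Fin (N + 1)) ℂ} {H : ι → MvPolynomial (Fin (N + 1)) ℂ}
    (hG : ∀ l, (G l).IsHomogeneous (d l)) (hH : ∀ l, (H l).IsHomogeneous (e l))
    (hX : StratHyp G H)
    {f : ℂ → PN N} (hf : HolomorphicInto f puncturedDisc)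
    (hfX : ∀ z ∈ puncturedDisc, f z ∈ zeroLocus G)
    (hfH : InOut H f puncturedDisc) {δ : ℝ} (hδ : 0 < δ) (hδ2 : δ ≤ 1 / 2) :
    ∃ r₁ : ℝ, 0 < r₁ ∧ r₁ < 1 ∧ ∀ z w : ℂ, z ≠ 0 → ‖z‖ < r₁ → ‖w‖ = ‖z‖ →
      sep (f w) (f z) ≤ δ := by
  obtain ⟨ρ, hρ, hev⟩ := uniform_modulus_log (Gk := fun _ => G) (fun _ => hG) hG
    (fun l m => tendsto_const_nhds) (Hk := fun _ => H) (fun _ => hH) hH
    (fun l m => tendsto_const_nhds) hX hδ hδ2
  obtain ⟨-, hmod⟩ := hev.exists
  have hpos : 0 < Real.pi / ρ := div_pos Real.pi_pos hρ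
  refine ⟨Real.exp (-(Real.pi / ρ)), Real.exp_pos _, by
    rw [Real.exp_lt_one_iff]
    linarith, ?_⟩
  intro z w hz0 hz hwz
  have hznorm : 0 < ‖z‖ := norm_pos_iff.mpr hz0
  set L : ℝ := -Real.log ‖z‖ with hL
  have hLbig : Real.pi / ρ < L := by
    have h1 := Real.log_lt_log hznorm hz
    rw [Real.log_exp] at h1
    rw [hL]
    linarith
  have hLpos : 0 < L := hpos.trans hLbig
  -- the argument
  set θ : ℝ := Complex.arg (w / z) with hθ
  have hwz' : w = z * Complex.exp (θ * Complex.I) := by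
    have h1 : ‖w / z‖ = 1 := by
      rw [norm_div, hwz, div_self hznorm.ne']
    have h2 := Complex.norm_mul_exp_arg_mul_I (w / z)
    rw [h1, Complex.ofReal_one, one_mul] at h2
    rw [hθ, h2, mul_div_cancel₀ _ hz0]
  have hmem : ∀ ζ ∈ Metric.ball (0 : ℂ) 1, z * Complex.exp (L * ζ) ∈ puncturedDisc := by
    intro ζ hζ
    rw [mem_ball_zero_iff] at hζ
    refine ⟨?_, ?_⟩
    · rw [mem_ball_zero_iff, norm_mul, Complex.norm_exp, Complex.re_ofReal_mul]
      have h1 : ζ.re < 1 := (Complex.re_le_norm ζ).trans_lt hζ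
      have h2 : Real.exp (L * ζ.re) < Real.exp L := by
        rw [Real.exp_lt_exp]
        nlinarith
      have h3 : Real.exp L = ‖z‖⁻¹ := by
        rw [hL, Real.exp_neg, Real.exp_log hznorm]
      rw [h3] at h2
      calc ‖z‖ * Real.exp (L * ζ.re) < ‖z‖ * ‖z‖⁻¹ := by gcongr
        _ = 1 := mul_inv_cancel₀ hznorm.ne'
    · rw [Set.mem_singleton_iff]
      exact mul_ne_zero hz0 (Complex.exp_ne_zero _)
  have h1 := hmod (fun ζ => f (z * Complex.exp (L * ζ)))
    (hf.comp (fun ζ _ => by fun_prop) hmem)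
    (fun ζ hζ => hfX _ (hmem ζ hζ)) (hfH.comp hmem) (θ * Complex.I / L) (by
      rw [mem_ball_zero_iff, norm_div, norm_mul, Complex.norm_I, mul_one, Complex.norm_real,
        Complex.norm_real, Real.norm_of_nonneg hLpos.le, div_lt_iff₀ hLpos]
      have h2 : ‖θ‖ ≤ Real.pi := by
        rw [Real.norm_eq_abs]
        exact Complex.abs_arg_le_pi _
      rw [div_lt_iff₀ hρ] at hLbig
      linarith)
  have h2 : (L : ℂ) ≠ 0 := by exact_mod_cast hLpos.ne'
  have h3 : (L : ℂ) * (θ * Complex.I / L) = θ * Complex.I := by field_simp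
  simp only [h3, mul_zero, Complex.exp_zero, mul_one] at h1
  rw [hwz']
  exact h1

/-- **Picard hyperbolicity.** -/
theorem picard_of_strat {κ ι : Type} {d : κ → ℕ} {e : ι → ℕ}
    {G : κ → MvPolynomial (Fin (N + 1)) ℂ} {H : ι → MvPolynomial (Fin (N + 1)) ℂ}
    (hG : ∀ l, (G l).IsHomogeneous (d l)) (hH : ∀ l, (H l).IsHomogeneous (e l))
    (hX : StratHyp G H)
    {f : ℂ → PN N} (hf : HolomorphicInto f puncturedDisc)
    (hfX : ∀ z ∈ puncturedDisc, f z ∈ zeroLocus G) (hfH : InOut H f puncturedDisc) :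
    ∃ g : ℂ → PN N, HolomorphicInto g (Metric.ball 0 1) ∧ ∀ z ∈ puncturedDisc, g z = f z := by
  classical
  have hmemP : ∀ z : ℂ, z ≠ 0 → ‖z‖ < 1 → z ∈ puncturedDisc := fun z h1 h2 =>
    ⟨mem_ball_zero_iff.mpr h2, h1⟩
  -- a cluster point along the positive real axis
  set 𝒰 : Ultrafilter ℕ := hyperfilter ℕ with h𝒰
  have h𝒰top : (𝒰 : Filter ℕ) ≤ atTop := by
    rw [← Nat.cofinite_eq_atTop]
    exact hyperfilter_le_cofinite
  set r : ℕ → ℝ := fun k => 1 / ((k : ℝ) + 1) with hr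
  have hrpos : ∀ k, 0 < r k := fun k => by
    simp only [hr]
    positivity
  have hrlim : Tendsto r atTop (𝓝 0) := tendsto_one_div_add_atTop_nhds_zero_nat
  choose m hm using fun k => exists_norm_eq (f (r k)).rep
  obtain ⟨i, hi⟩ := ultrafilter_exists_eq 𝒰 m
  have hnorm1 : ∀ᶠ k in (𝒰 : Filter ℕ), ‖chart i (f (r k))‖ = 1 ∧ (f (r k)).rep i ≠ 0 := by
    filter_upwards [hi] with k hk
    have h1 := hm k
    rw [hk] at h1
    have h2 : (f (r k)).rep i ≠ 0 := by
      intro h0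
      rw [h0, norm_zero] at h1
      exact (f (r k)).rep_nonzero (norm_eq_zero.mp h1.symm)
    refine ⟨?_, h2⟩
    unfold chart
    rw [norm_smul, norm_inv, h1, inv_mul_cancel₀]
    exact norm_ne_zero_iff.mpr (f (r k)).rep_nonzero
  obtain ⟨q, hqmem, hq⟩ : ∃ q ∈ Metric.closedBall (0 : Fin (N + 1) → ℂ) 1,
      Tendsto (fun k => chart i (f (r k))) (𝒰 : Filter ℕ) (𝓝 q) := by
    have hmemc : ∀ᶠ k in (𝒰 : Filter ℕ), chart i (f (r k)) ∈
        Metric.closedBall (0 : Fin (N + 1) → ℂ) 1 := by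
      filter_upwards [hnorm1] with k hk
      rw [mem_closedBall_zero_iff, hk.1]
    obtain ⟨l, hl1, hl2⟩ := (isCompact_closedBall (0 : Fin (N + 1) → ℂ) 1).ultrafilter_le_nhds
      (𝒰.map fun k => chart i (f (r k))) (by rw [le_principal_iff]; exact hmemc)
    exact ⟨l, hl1, hl2⟩
  rw [mem_closedBall_zero_iff] at hqmem
  have hqi : q i = 1 := by
    have h1 : Tendsto (fun k => chart i (f (r k)) i) (𝒰 : Filter ℕ) (𝓝 (q i)) :=
      ((continuous_apply i).tendsto _).comp hq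
    have h2 : ∀ᶠ k in (𝒰 : Filter ℕ), chart i (f (r k)) i = 1 := by
      filter_upwards [hnorm1] with k hk
      exact chart_self hk.2
    exact tendsto_nhds_unique h1 ((tendsto_congr' h2).mpr tendsto_const_nhds)
  have hq0 : q ≠ 0 := by
    rintro rfl
    simp at hqi
  -- the function measuring the distance to the cluster point
  set S : ℝ → ℝ := fun t => sepv q (f t).rep with hS
  have hScont : ∀ t : ℝ, 0 < t → t < 1 → ContinuousAt S t := by
    intro t ht0 ht1
    have h1 := continuousAt_sepv_rep hf (hmemP t (by exact_mod_cast ht0.ne') (by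
      rw [Complex.norm_real, Real.norm_of_nonneg ht0.le]; exact ht1)) hq0
    exact h1.comp (f := fun t : ℝ => (t : ℂ)) (x := t) Complex.continuous_ofReal.continuousAt
  have hSfreq : ∀ ε > 0, ∀ s > 0, ∃ t, 0 < t ∧ t < s ∧ S t < ε := by
    intro ε hε s hs
    have h1 : ∀ᶠ k in (𝒰 : Filter ℕ), ‖chart i (f (r k)) - q‖ < ε / 2 := by
      have h2 := (tendsto_iff_norm_sub_tendsto_zero.mp hq).eventually
        (gt_mem_nhds (half_pos hε))
      exact h2
    have h2 : ∀ᶠ k in (𝒰 : Filter ℕ), r k < s := h𝒰top (hrlim.eventually (gt_mem_nhds hs))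
    obtain ⟨k, hk1, hk2, hk3⟩ := (h1.and (h2.and hnorm1)).exists
    refine ⟨r k, hrpos k, hk2, ?_⟩
    have h3 := sepv_le_of_close hqi hk3.2
    have h4 : ‖((f (r k)).rep i)⁻¹ • (f (r k)).rep - q‖ < ε / 2 := hk1
    calc S (r k) ≤ 2 * ‖((f (r k)).rep i)⁻¹ • (f (r k)).rep - q‖ := h3
      _ < ε := by linarith
  -- consequence of a small value of `S`
  have hnear : ∀ (δ η : ℝ), 0 < δ → δ ≤ 1 / 8 → η ≤ 1 / 16 → ∀ r₁ : ℝ,
      (∀ z w : ℂ, z ≠ 0 → ‖z‖ < r₁ → ‖w‖ = ‖z‖ → sep (f w) (f z) ≤ δ) →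
      ∀ z : ℂ, z ≠ 0 → ‖z‖ < r₁ → S ‖z‖ ≤ η → (f z).rep i ≠ 0 ∧
        ‖chart i (f z) - chart i (f ‖z‖)‖ ≤ 8 * δ ∧ ‖chart i (f ‖z‖) - q‖ ≤ 8 * η ∧
        (f ‖z‖).rep i ≠ 0 := by
    intro δ η hδ hδ8 hη r₁ hosc z hz0 hz1 hSz
    have hη0 : 0 ≤ η := by
      refine le_trans ?_ hSz
      simp only [hS]
      unfold sepv
      positivity
    obtain ⟨h1, h2⟩ := chart_close (f ‖z‖).rep_nonzero hqi (by linarith) hη0 (by linarith) hSz
    have h3 : ‖chart i (f ‖z‖)‖ ≤ 2 := by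
      have h4 : ‖chart i (f ‖z‖)‖ ≤ ‖chart i (f ‖z‖) - q‖ + ‖q‖ := by
        have := norm_add_le (chart i (f ‖z‖) - q) q
        simpa using this
      have h5 : ‖chart i (f ‖z‖) - q‖ ≤ 8 * η := h2
      linarith
    have h4 : sep (f z) (f (‖z‖ : ℂ)) ≤ δ := by
      apply hosc
      · exact_mod_cast norm_ne_zero_iff.mpr hz0
      · rw [Complex.norm_real, norm_norm]
        exact hz1
      · rw [Complex.norm_real, norm_norm]
    have h5 : sepv (chart i (f (‖z‖ : ℂ))) (f z).rep ≤ δ := by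
      unfold chart
      have h6 := sepv_smul (inv_ne_zero h1) (one_ne_zero) (f (‖z‖ : ℂ)).rep (f z).rep
      rw [one_smul] at h6
      rw [h6]
      rw [sep_comm] at h4
      exact h4
    obtain ⟨h6, h7⟩ := chart_close (f z).rep_nonzero (chart_self h1) h3 hδ.le hδ8 h5
    exact ⟨h6, h7, h2, h1⟩
  -- convergence along the real axis
  have hSlim : ∀ η : ℝ, 0 < η → η ≤ 1 / 16 → ∃ s > 0, ∀ t, 0 < t → t < s → S t ≤ η := by
    intro η hη hη16
    by_contra hcon
    push Not at hcon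
    set δ : ℝ := η / 100 with hδ
    have hδpos : 0 < δ := by positivity
    obtain ⟨r₁, hr₁0, hr₁1, hosc⟩ := circle_oscillation_log hG hH hX hf hfX hfH hδpos (by
      rw [hδ]; linarith)
    obtain ⟨s', hs'0, hs'1, hs'2⟩ := hcon r₁ hr₁0
    obtain ⟨a, ha0, ha1, ha2⟩ := hSfreq δ hδpos s' hs'0
    obtain ⟨s, hsmem, has, hSs, hSle⟩ := exists_first_hit ha1.le (fun t ht =>
      (hScont t (ha0.trans_le ht.1) (ht.2.trans_lt (hs'1.trans hr₁1))).continuousWithinAt)
      (ha2.trans (by rw [hδ]; linarith)) hs'2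
    have hs0 : 0 < s := ha0.trans has
    have hsr₁ : s < r₁ := hsmem.2.trans_lt hs'1
    have hgood : ∀ z : ℂ, a ≤ ‖z‖ → ‖z‖ ≤ s → (f z).rep i ≠ 0 ∧
        ‖chart i (f z) - chart i (f ‖z‖)‖ ≤ 8 * δ ∧ ‖chart i (f ‖z‖) - q‖ ≤ 8 * η ∧
        (f ‖z‖).rep i ≠ 0 := by
      intro z hz1 hz2
      exact hnear δ η hδpos (by rw [hδ]; linarith) hη16 r₁ hosc z
        (norm_pos_iff.mp (ha0.trans_le hz1)) (hz2.trans_lt hsr₁) (hSle _ ⟨hz1, hz2⟩)
    have hmean := annulus_mean (h := fun z => chart i (f z)) ha0 has.le (C := 8 * δ)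
      (va := chart i (f (a : ℂ))) (vb := chart i (f (s : ℂ)))
      (by
        intro z hz1 hz2
        obtain ⟨φ, hφ, he⟩ := hf z (hmemP z (norm_pos_iff.mp (ha0.trans_le hz1))
          (hz2.trans_lt (hsr₁.trans hr₁1)))
        exact (analyticAt_chart hφ he (hgood z hz1 hz2).1).differentiableAt)
      (by
        intro z hz
        have := (hgood z hz.ge (hz.le.trans has.le)).2.1
        rw [hz] at this
        exact this)
      (by
        intro z hz
        have := (hgood z (has.le.trans hz.ge) hz.le).2.1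
        rw [hz] at this
        exact this)
    have hanorm : ‖(a : ℂ)‖ = a := by rw [Complex.norm_real, Real.norm_of_nonneg ha0.le]
    have hsnorm : ‖(s : ℂ)‖ = s := by rw [Complex.norm_real, Real.norm_of_nonneg hs0.le]
    -- near the inner circle
    have h1 := hnear δ δ hδpos (by rw [hδ]; linarith) (by rw [hδ]; linarith) r₁ hosc (a : ℂ)
      (by exact_mod_cast ha0.ne') (by rw [hanorm]; exact has.trans hsr₁) (by
        rw [hanorm]; exact ha2.le)
    rw [hanorm] at h1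
    -- near the outer circle
    have h2 := hgood (s : ℂ) (by rw [hsnorm]; exact has.le) (by rw [hsnorm])
    rw [hsnorm] at h2
    have h3 := sepv_le_of_close hqi h2.2.2.2
    have h4 : S s ≤ 2 * ‖chart i (f (s : ℂ)) - q‖ := h3
    have h5 : ‖chart i (f (s : ℂ)) - q‖ ≤ ‖chart i (f (a : ℂ)) - chart i (f (s : ℂ))‖ +
        ‖chart i (f (a : ℂ)) - q‖ := by
      have h6 : chart i (f (s : ℂ)) - q = -(chart i (f (a : ℂ)) - chart i (f (s : ℂ))) +
          (chart i (f (a : ℂ)) - q) := by abel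
      rw [h6]
      refine (norm_add_le _ _).trans ?_
      rw [norm_neg]
    have h7 := h1.2.2.1
    rw [hSs] at h4
    rw [hδ] at hmean h7
    linarith
  -- convergence in the punctured disc
  have hlim : ∀ ε : ℝ, 0 < ε → ∃ s, 0 < s ∧ s < 1 ∧ ∀ z : ℂ, z ≠ 0 → ‖z‖ < s →
      (f z).rep i ≠ 0 ∧ ‖chart i (f z) - q‖ < ε := by
    intro ε hε
    set η : ℝ := min (1 / 16) (ε / 32) with hη
    have hηpos : 0 < η := by positivity
    have hη16 : η ≤ 1 / 16 := min_le_left _ _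
    have hηε : η ≤ ε / 32 := min_le_right _ _
    obtain ⟨r₁, hr₁0, hr₁1, hosc⟩ := circle_oscillation_log hG hH hX hf hfX hfH hηpos (by linarith)
    obtain ⟨s, hs0, hs⟩ := hSlim η hηpos hη16
    refine ⟨min r₁ s, lt_min hr₁0 hs0, (min_le_left _ _).trans_lt hr₁1, fun z hz0 hz => ?_⟩
    have hznorm := norm_pos_iff.mpr hz0
    obtain ⟨h1, h2, h3, -⟩ := hnear η η hηpos (by linarith) hη16 r₁ hosc z hz0
      (hz.trans_le (min_le_left _ _)) (hs _ hznorm (hz.trans_le (min_le_right _ _)))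
    refine ⟨h1, ?_⟩
    have h4 : chart i (f z) - q = (chart i (f z) - chart i (f ‖z‖)) + (chart i (f ‖z‖) - q) := by
      abel
    rw [h4]
    refine (norm_add_le _ _).trans_lt ?_
    linarith
  -- the extension
  obtain ⟨s₁, hs₁0, hs₁1, hs₁⟩ := hlim 1 one_pos
  set h : ℂ → Fin (N + 1) → ℂ := Function.update (fun z => chart i (f z)) 0 q with hh
  have hhne : ∀ z, z ≠ 0 → h z = chart i (f z) := fun z hz => by
    rw [hh, Function.update_of_ne hz]
  have hh0 : h 0 = q := by rw [hh, Function.update_self]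
  have hhan : AnalyticAt ℂ h 0 := by
    apply Complex.analyticAt_of_differentiable_on_punctured_nhds_of_continuousAt
    · have h1 : ∀ᶠ z : ℂ in 𝓝[≠] 0, ‖z‖ < s₁ := by
        have h2 : ∀ᶠ z : ℂ in 𝓝 0, z ∈ Metric.ball (0 : ℂ) s₁ := Metric.ball_mem_nhds 0 hs₁0
        filter_upwards [h2.filter_mono nhdsWithin_le_nhds] with z hz
        exact mem_ball_zero_iff.mp hz
      filter_upwards [h1, self_mem_nhdsWithin] with z hz1 hz2
      obtain ⟨φ, hφ, he⟩ := hf z (hmemP z hz2 (hz1.trans hs₁1))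
      have h3 := (analyticAt_chart hφ he (hs₁ z hz2 hz1).1).differentiableAt
      refine h3.congr_of_eventuallyEq ?_
      have h4 : ∀ᶠ y : ℂ in 𝓝 z, y ≠ 0 := isOpen_ne.mem_nhds hz2
      filter_upwards [h4] with y hy
      exact hhne y hy
    · rw [Metric.continuousAt_iff]
      intro ε hε
      obtain ⟨s, hs0, -, hs⟩ := hlim ε hε
      refine ⟨s, hs0, fun {z} hz => ?_⟩
      rw [hh0, dist_eq_norm]
      by_cases hz0 : z = 0
      · rw [hz0, hh0, sub_self, norm_zero]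
        exact hε
      · rw [hhne z hz0]
        rw [dist_zero_right] at hz
        exact (hs z hz0 hz).2
  refine ⟨fun z => if z = 0 then Projectivization.mk ℂ q hq0 else f z, ?_, ?_⟩
  · intro z₀ hz₀
    by_cases hz : z₀ = 0
    · subst hz
      refine ⟨h, hhan, ?_⟩
      have h2 : ∀ᶠ z : ℂ in 𝓝 0, z ∈ Metric.ball (0 : ℂ) s₁ := Metric.ball_mem_nhds 0 hs₁0
      filter_upwards [h2] with z hz
      rw [mem_ball_zero_iff] at hz
      by_cases hz0 : z = 0
      · subst hz0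
        refine ⟨by rw [hh0]; exact hq0, ?_⟩
        rw [if_pos rfl]
        congr 1
        exact hh0.symm
      · have h3 := (hs₁ z hz0 hz).1
        refine ⟨by rw [hhne z hz0]; exact chart_ne_zero h3, ?_⟩
        rw [if_neg hz0]
        conv_lhs => rw [← mk_chart h3]
        congr 1
        exact (hhne z hz0).symm
    · obtain ⟨φ, hφ, he⟩ := hf z₀ (hmemP z₀ hz (mem_ball_zero_iff.mp hz₀))
      refine ⟨φ, hφ, ?_⟩
      have h4 : ∀ᶠ y : ℂ in 𝓝 z₀, y ≠ 0 := isOpen_ne.mem_nhds hz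
      filter_upwards [he, h4] with z hz1 hz2
      rw [if_neg hz2]
      exact hz1
  · intro z hz
    have : z ≠ 0 := hz.2
    simp only [if_neg this]

end Pool.Agent.H62.Log
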