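import Pool.Agent.H17.OpenHyperbolic
import Pool.Agent.H62.Log.Picard
import Pool.Agent.H62.Log.ComplNonempty
import Pool.Agent.H79.Log.SmoothPair

/-!
# Open sets of smooth hyperbolic pairs
-/

open Topology Filter

namespace Pool.Agent.H62.Log

open Pool.Agent.H17 Pool.Agent.H79.Log

/-- The points of the common zero locus of the forms `G` at which exactly the forms `H l`, `l ∈ S`,
vanish. -/
def stratum {N : ℕ} {κ ι : Type} (G : κ → MvPolynomial (Fin (N + 1)) ℂ)
    (H : ι → MvPolynomial (Fin (N + 1)) ℂ) (S : Set ι) : Set (PN N) :=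
  {x | x ∈ zeroLocus G ∧ ∀ l, VanishesAt (H l) x ↔ l ∈ S}

/-- The complement of the boundary: the common zero locus of the forms `G` minus the zero loci of
the forms `H l`. -/
def openPart {N : ℕ} {κ ι : Type} (G : κ → MvPolynomial (Fin (N + 1)) ℂ)
    (H : ι → MvPolynomial (Fin (N + 1)) ℂ) : Set (PN N) :=
  {x | x ∈ zeroLocus G ∧ ∀ l, ¬ VanishesAt (H l) x}

lemma brody_stratum {N : ℕ} {κ ι : Type} {G : κ → MvPolynomial (Fin (N + 1)) ℂ}
    {H : ι → MvPolynomial (Fin (N + 1)) ℂ} (h : StratHyp G H) (S : Set ι) :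
    BrodyHyperbolic (stratum G H S) := by
  classical
  intro f hf hfX
  refine h f hf (fun z => (hfX z).1) (fun l => ?_)
  by_cases hl : l ∈ S
  · exact Or.inl fun z _ => ((hfX z).2 l).mpr hl
  · exact Or.inr fun z _ h1 => hl (((hfX z).2 l).mp h1)

lemma picard_stratum {N : ℕ} {κ ι : Type} {d : κ → ℕ} {e : ι → ℕ}
    {G : κ → MvPolynomial (Fin (N + 1)) ℂ} {H : ι → MvPolynomial (Fin (N + 1)) ℂ}
    (hG : ∀ l, (G l).IsHomogeneous (d l)) (hH : ∀ l, (H l).IsHomogeneous (e l))
    (h : StratHyp G H) (S : Set ι) : PicardHyperbolic (stratum G H S) := by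
  classical
  intro f hf hfX
  refine picard_of_strat hG hH h hf (fun z hz => (hfX z hz).1) (fun l => ?_)
  by_cases hl : l ∈ S
  · exact Or.inl fun z hz => ((hfX z hz).2 l).mpr hl
  · exact Or.inr fun z hz h1 => hl (((hfX z hz).2 l).mp h1)

/-- A system such that every entire curve in it which is contained in or disjoint from each
boundary component is constant can be approximated by open sets of smooth hyperbolic pairs. -/
theorem open_of_strat {n c m : ℕ} {d : Fin c → ℕ} {δ : Fin m → ℕ} (hd : ∀ l, 1 ≤ d l)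
    (hδ : ∀ l, 1 ≤ δ l)
    (h : ∃ (G : Fin c → MvPolynomial (Fin (n + c + 1)) ℂ)
      (H : Fin m → MvPolynomial (Fin (n + c + 1)) ℂ), (∀ l, (G l).IsHomogeneous (d l)) ∧
      (∀ l, (H l).IsHomogeneous (δ l)) ∧ StratHyp G H) :
    ∃ (G₀ : Fin c → MvPolynomial (Fin (n + c + 1)) ℂ)
      (H₀ : Fin m → MvPolynomial (Fin (n + c + 1)) ℂ), (∀ l, (G₀ l).IsHomogeneous (d l)) ∧
      (∀ l, (H₀ l).IsHomogeneous (δ l)) ∧
      ∃ ε > 0, ∀ (G : Fin c → MvPolynomial (Fin (n + c + 1)) ℂ)
        (H : Fin m → MvPolynomial (Fin (n + c + 1)) ℂ),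
        (∀ l, (G l).IsHomogeneous (d l)) → (∀ l, (H l).IsHomogeneous (δ l)) →
        (∀ l m, ‖(G l).coeff m - (G₀ l).coeff m‖ < ε) →
        (∀ l m, ‖(H l).coeff m - (H₀ l).coeff m‖ < ε) →
        (openPart G H).Nonempty ∧ SmoothPair G H ∧
          ∀ S : Set (Fin m), BrodyHyperbolic (stratum G H S) ∧ PicardHyperbolic (stratum G H S) := by
  obtain ⟨G', H', hG', hH', hst⟩ := h
  obtain ⟨ε₂, hε₂, hopen₂⟩ := strat_open hG' hH' hst
  obtain ⟨G₀, H₀, hG₀, hH₀, hnear, hnearH, hsm⟩ := exists_smoothPair_near hd hδ hG' hH'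
    (half_pos hε₂)
  obtain ⟨ε₁, hε₁, hopen₁⟩ := smoothPair_open hG₀ hH₀ hsm
  refine ⟨G₀, H₀, hG₀, hH₀, min ε₁ (ε₂ / 2), lt_min hε₁ (half_pos hε₂), ?_⟩
  intro G H hG hH hclose hcloseH
  have hstG : StratHyp G H := by
    refine hopen₂ G H hG hH (fun l m => ?_) (fun l m => ?_)
    · have h1 := (hclose l m).trans_le (min_le_right _ _)
      have h2 := hnear l m
      have h3 : (G l).coeff m - (G' l).coeff m =
          ((G l).coeff m - (G₀ l).coeff m) + ((G₀ l).coeff m - (G' l).coeff m) := by ring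
      rw [h3]
      refine (norm_add_le _ _).trans_lt ?_
      linarith
    · have h1 := (hcloseH l m).trans_le (min_le_right _ _)
      have h2 := hnearH l m
      have h3 : (H l).coeff m - (H' l).coeff m =
          ((H l).coeff m - (H₀ l).coeff m) + ((H₀ l).coeff m - (H' l).coeff m) := by ring
      rw [h3]
      refine (norm_add_le _ _).trans_lt ?_
      linarith
  have hpair : SmoothPair G H := hopen₁ G H hG hH
    (fun l m => (hclose l m).trans_le (min_le_left _ _))
    (fun l m => (hcloseH l m).trans_le (min_le_left _ _))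
  refine ⟨?_, hpair, fun S => ⟨brody_stratum hstG S, picard_stratum hG hH hstG S⟩⟩
  obtain ⟨x, hx⟩ := zeroLocus_nonempty (N := n + c) (by omega) hd hG
  have hx' : ∀ l, MvPolynomial.eval x.rep (G l) = 0 := hx
  obtain ⟨y, hy0, hyG, hyH⟩ := exists_ne_of_independent x.rep_nonzero hx'
    (hpair x.rep x.rep_nonzero hx')
  refine ⟨Projectivization.mk ℂ y hy0, fun l => (vanishesAt_mk_iff (hG l) y hy0).mpr (hyG l),
    fun l => ?_⟩
  rw [vanishesAt_mk_iff (hH l)]
  exact hyH l

end Pool.Agent.H62.Log
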